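import Pool.Agent.R311.SE.D

set_option autoImplicit false

/-! Arithmetic of the test functions: a short power times a piece of the zeta sum. -/

namespace Pool.Agent.K7.H52.MD

open Finset
open Pool.Agent.H306R2 Pool.Agent.R311.BS Pool.Agent.R311.SE

noncomputable section

/-- the indicator of `[P, Q]` -/
def dI (P Q : ℝ) : ArithmeticFunction ℝ :=
  ⟨fun n => if n ≠ 0 ∧ P ≤ (n:ℝ) ∧ (n:ℝ) ≤ Q then 1 else 0, by simp⟩

lemma dI_apply (P Q : ℝ) (n : ℕ) : dI P Q n = if n ≠ 0 ∧ P ≤ (n:ℝ) ∧ (n:ℝ) ≤ Q then 1 else 0 := rfl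

lemma dI_nonneg (P Q : ℝ) (n : ℕ) : 0 ≤ dI P Q n := by
  rw [dI_apply]; split_ifs <;> norm_num

lemma dI_le_one (P Q : ℝ) (n : ℕ) : dI P Q n ≤ 1 := by
  rw [dI_apply]; split_ifs <;> norm_num

lemma dI_le_cA {P Q X : ℝ} (hQX : Q ≤ X) (n : ℕ) : dI P Q n ≤ cA 1 X 1 n := by
  rw [dI_apply]
  split_ifs with h
  · rw [cA_one_apply (by omega) (h.2.2.trans hQX)]
  · exact cA_nonneg 1 X zero_le_one n

lemma dI_supp (P Q : ℝ) (n : ℕ) (hn : Q < n) : dI P Q n = 0 := by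
  rw [dI_apply, if_neg]
  intro h
  linarith [h.2.2]

/-- the test coefficients -/
def gA (N P Q : ℝ) (a : ℕ) : ArithmeticFunction ℝ := Aq N a * dI P Q

lemma Aq_nonneg (N : ℝ) (a n : ℕ) : 0 ≤ Aq N a n := (Aq_bd N a n).1

lemma Aq_supp (N : ℝ) (hN : 1 ≤ N) (a n : ℕ) (hn : N ^ a < n) : Aq N a n = 0 :=
  (Dp_pow (cA 1 N (1 / 2)) N hN (cA_supp 1 N (1 / 2)) 0 a).1 n hn

lemma gA_nonneg (N P Q : ℝ) (a n : ℕ) : 0 ≤ gA N P Q a n := by
  unfold gA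
  rw [ArithmeticFunction.mul_apply]
  exact sum_nonneg fun x _ => mul_nonneg (Aq_nonneg N a _) (dI_nonneg P Q _)

lemma gA_le_zA {N P Q X : ℝ} (hQX : Q ≤ X) (a n : ℕ) : gA N P Q a n ≤ zA N X a n := by
  unfold gA
  have e : zA N X a = Aq N a * cA 1 X 1 := rfl
  rw [e, ArithmeticFunction.mul_apply, ArithmeticFunction.mul_apply]
  exact sum_le_sum fun x _ => mul_le_mul_of_nonneg_left (dI_le_cA hQX _) (Aq_nonneg N a _)

lemma gA_supp {N P Q : ℝ} (hN : 1 ≤ N) (a n : ℕ) (h : gA N P Q a n ≠ 0) :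
    P ≤ n ∧ (n:ℝ) ≤ N ^ a * Q := by
  unfold gA at h
  rw [ArithmeticFunction.mul_apply] at h
  obtain ⟨x, hx, h1⟩ := exists_ne_zero_of_sum_ne_zero h
  rw [Nat.mem_divisorsAntidiagonal] at hx
  have h2 : Aq N a x.1 ≠ 0 := left_ne_zero_of_mul h1
  have h3 : dI P Q x.2 ≠ 0 := right_ne_zero_of_mul h1
  rw [dI_apply] at h3
  have h4 : x.2 ≠ 0 ∧ P ≤ (x.2:ℝ) ∧ (x.2:ℝ) ≤ Q := by
    by_contra h5
    rw [if_neg h5] at h3
    exact h3 rfl
  have h6 : (x.1:ℝ) ≤ N ^ a := by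
    by_contra h7
    rw [not_le] at h7
    exact h2 (Aq_supp N hN a _ h7)
  have hn : (n:ℝ) = x.1 * x.2 := by rw [← hx.1]; push_cast; ring
  have hx1 : 1 ≤ x.1 := by
    rcases Nat.eq_zero_or_pos x.1 with h0 | h0
    · rw [h0, zero_mul] at hx; exact absurd hx.1.symm hx.2
    · exact h0
  have hx1r : (1:ℝ) ≤ x.1 := by exact_mod_cast hx1
  have hx2r : (0:ℝ) ≤ x.2 := Nat.cast_nonneg _
  constructor
  · rw [hn]; nlinarith
  · rw [hn]
    have : (0:ℝ) ≤ N ^ a := by positivity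
    exact mul_le_mul h6 h4.2.2 hx2r this

lemma gA_zero_of {N P Q : ℝ} (hN : 1 ≤ N) (a n : ℕ) (hn : N ^ a * Q < n) : gA N P Q a n = 0 := by
  by_contra h
  linarith [(gA_supp hN a n h).2]

lemma PB_dI (P Q : ℝ) : PB (dI P Q) 0 := by
  intro n
  rw [abs_of_nonneg (dI_nonneg P Q n), pow_zero]
  exact dI_le_one P Q n

/-- crude bound -/
lemma gA_l1 {N P Q X : ℝ} (hN : 1 ≤ N) (hQ : 1 ≤ Q) (hQX : Q ≤ X) (a q : ℕ) (ha : a ≤ q) :
    l1 (gA N P Q a) (N ^ a * Q) ≤ (N ^ q * X) ^ (q + 2) := by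
  have h1 := (PB_cA_one 1 N (α := 1 / 2) (by norm_num) (by norm_num)).pow a
  have h2 := h1.mul (PB_dI P Q)
  have h3 : PB (gA N P Q a) (a + 1) := h2.mono (by simp)
  have hY : 1 ≤ N ^ a * Q := one_le_mul_of_one_le_of_one_le (one_le_pow₀ hN) hQ
  have h4 := l1_PB h3 hY
  have h5 : N ^ a * Q ≤ N ^ q * X := by
    have h6 := pow_le_pow_right₀ hN ha
    have h7 : 0 ≤ N ^ q := by positivity
    calc N ^ a * Q ≤ N ^ q * Q := by gcongr
      _ ≤ N ^ q * X := by gcongr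
  calc _ ≤ (N ^ a * Q) ^ (a + 1 + 1) := h4
    _ ≤ (N ^ q * X) ^ (a + 1 + 1) := pow_le_pow_left₀ (by linarith) h5 _
    _ ≤ _ := pow_le_pow_right₀ (hY.trans h5) (by omega)

/-- the test polynomial -/
def TG (N P Q : ℝ) (a : ℕ) (t : ℝ) : ℂ := Dp (gA N P Q a) (N ^ a * Q) (1 / 2 + t * Complex.I)

lemma TG_eq {N P Q : ℝ} (hN : 1 ≤ N) (hQ : 0 ≤ Q) (a : ℕ) (t : ℝ) :
    TG N P Q a t = AL N t ^ a * Dp (dI P Q) Q (1 / 2 + t * Complex.I) := by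
  have h1 := Dp_pow (cA 1 N (1 / 2)) N hN (cA_supp 1 N (1 / 2)) (1 / 2 + t * Complex.I) a
  have h2 := Dp_mul (cA 1 N (1 / 2) ^ a) (dI P Q) (N ^ a) Q (by positivity) hQ h1.1
    (dI_supp P Q) (1 / 2 + t * Complex.I)
  rw [h1.2] at h2
  exact h2.2

lemma TG_cont (N P Q : ℝ) (a : ℕ) : Continuous (TG N P Q a) := Dp_cont _ _

lemma sum_inv_sqrt (N : ℕ) : ∑ n ∈ Icc 1 N, (Real.sqrt n)⁻¹ ≤ 2 * Real.sqrt N := by
  induction N with
  | zero => simp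
  | succ N ih =>
    rw [Finset.sum_Icc_succ_top (by omega)]
    have h1 : (0:ℝ) ≤ N := Nat.cast_nonneg N
    have h2 : 0 < Real.sqrt ((N:ℝ) + 1) := Real.sqrt_pos.mpr (by linarith)
    have h3 := Real.sqrt_nonneg (N:ℝ)
    have h4 : Real.sqrt ((N:ℝ) + 1) ^ 2 = N + 1 := Real.sq_sqrt (by linarith)
    have h5 : Real.sqrt (N:ℝ) ^ 2 = N := Real.sq_sqrt h1
    have h6 : (Real.sqrt ((N:ℝ) + 1))⁻¹ ≤ 2 * Real.sqrt ((N:ℝ) + 1) - 2 * Real.sqrt N := by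
      rw [inv_le_iff_one_le_mul₀ h2]
      nlinarith [sq_nonneg (Real.sqrt ((N:ℝ) + 1) - Real.sqrt N)]
    push_cast
    linarith

lemma TG_norm {N P Q : ℝ} (hN : 1 ≤ N) (hQ : 0 ≤ Q) (a : ℕ) (t : ℝ) :
    ‖TG N P Q a t‖ ≤ N ^ a * (2 * Real.sqrt Q) := by
  rw [TG_eq hN hQ, norm_mul, norm_pow]
  have h1 := AL_norm N hN t
  have h2 : ‖Dp (dI P Q) Q (1 / 2 + t * Complex.I)‖ ≤ 2 * Real.sqrt Q := by
    rw [Dp_line]
    have h3 : ∑ n ∈ Icc 1 ⌊Q⌋₊, (Real.sqrt n)⁻¹ ≤ 2 * Real.sqrt Q := by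
      refine (sum_inv_sqrt _).trans ?_
      have := Real.sqrt_le_sqrt (Nat.floor_le hQ)
      linarith
    refine le_trans (norm_sum_le_of_le _ fun n hn => ?_) h3
    have h4 := dI_le_one P Q n
    have h5 := dI_nonneg P Q n
    rw [norm_mul, ex_norm, mul_one, Complex.norm_real, Real.norm_eq_abs, abs_mul, abs_of_nonneg h5,
      abs_of_nonneg (by positivity : (0:ℝ) ≤ (Real.sqrt n)⁻¹)]
    have : (0:ℝ) ≤ (Real.sqrt n)⁻¹ := by positivity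
    nlinarith
  have h3 : 0 ≤ ‖Dp (dI P Q) Q (1 / 2 + t * Complex.I)‖ := norm_nonneg _
  have h4 : (0:ℝ) ≤ N ^ a := by positivity
  exact mul_le_mul (pow_le_pow_left₀ (norm_nonneg _) h1 a) h2 h3 h4

/-- the diagonal sum -/
def SG (N X P Q : ℝ) (a : ℕ) : ℝ := ∑ n ∈ Icc 1 ⌊N ^ a * Q⌋₊, zA N X a n * gA N P Q a n / n

/-- the quadratic form of least common multiples -/
def WQ (N : ℝ) (a : ℕ) : ℝ := ∑ l ∈ Icc 1 ⌊N ^ a⌋₊, ∑ m ∈ Icc 1 ⌊N ^ a⌋₊,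
  Aq N a l * Aq N a m / (Nat.lcm l m : ℝ)

lemma zA_sum {N X : ℝ} (hN : 1 ≤ N) (a n : ℕ) (hn0 : n ≠ 0) (hn : (n:ℝ) ≤ X) :
    zA N X a n = ∑ l ∈ Icc 1 ⌊N ^ a⌋₊, if l ∣ n then Aq N a l else 0 := by
  have e : zA N X a = Aq N a * cA 1 X 1 := rfl
  rw [e, ArithmeticFunction.mul_apply, ← sum_filter]
  have h1 : ∑ x ∈ n.divisorsAntidiagonal, Aq N a x.1 * cA 1 X 1 x.2 =
      ∑ x ∈ n.divisorsAntidiagonal, Aq N a x.1 := by
    refine sum_congr rfl fun x hx => ?_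
    rw [Nat.mem_divisorsAntidiagonal] at hx
    have hx2 : x.2 ≠ 0 := by rintro h; rw [h, mul_zero] at hx; exact hn0 hx.1.symm
    have h2 : (x.2:ℝ) ≤ X := by
      refine le_trans ?_ hn
      exact_mod_cast Nat.le_of_dvd (Nat.pos_of_ne_zero hn0) ⟨x.1, by rw [mul_comm]; exact hx.1.symm⟩
    rw [cA_one_apply (by omega) h2, mul_one]
  rw [h1, Nat.sum_divisorsAntidiagonal (fun i _ => Aq N a i)]
  have hpos : (0:ℝ) ≤ N ^ a := by positivity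
  symm
  refine sum_subset_zero_on_sdiff ?_ ?_ (fun _ _ => rfl)
  · intro l hl
    rw [mem_filter] at hl
    rw [Nat.mem_divisors]
    exact ⟨hl.2, hn0⟩
  · intro l hl
    rw [mem_sdiff, Nat.mem_divisors, mem_filter, mem_Icc] at hl
    apply Aq_supp N hN
    have hl1 : 1 ≤ l := Nat.pos_of_dvd_of_pos hl.1.1 (Nat.pos_of_ne_zero hn0)
    by_contra h
    rw [not_lt] at h
    exact hl.2 ⟨⟨hl1, Nat.le_floor h⟩, hl.1.1⟩

/-- harmonic sums over multiples -/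
lemma harm_mult {r n : ℕ} (hr : 1 ≤ r) (P : ℝ) (hP : 1 ≤ P) (A Q : ℝ) (hA : (r:ℝ) ≤ A) (hQ : 1 ≤ Q)
    (hn : n = ⌊Q⌋₊) :
    (Real.log Q - Real.log P - Real.log A - 1) / r ≤
      ∑ m ∈ Icc 1 n, if (P ≤ (m:ℝ) ∧ r ∣ m) then 1 / (m:ℝ) else 0 := by
  have hr0 : (0:ℝ) < r := by exact_mod_cast hr
  -- the harmonic sum from `P` to `Q / r`
  set y : ℝ := Q / r with hy
  have hy0 : 0 ≤ y := by positivity
  set p : ℕ := ⌈P⌉₊ - 1 with hp
  have hp1 : 1 ≤ ⌈P⌉₊ := Nat.one_le_ceil_iff.mpr (by linarith)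
  have hpP : (p:ℝ) ≤ P := by
    have h1 : (⌈P⌉₊:ℝ) < P + 1 := Nat.ceil_lt_add_one (by linarith)
    have h2 : (p:ℝ) = ⌈P⌉₊ - 1 := by rw [hp]; push_cast [hp1]; ring
    linarith
  have hH1 : Real.log y ≤ ∑ k ∈ Icc 1 ⌊y⌋₊, (k:ℝ)⁻¹ := by
    have := log_le_harmonic_floor y hy0
    rw [harmonic_eq_sum_Icc] at this
    push_cast at this
    exact this
  have hH2 : ∑ k ∈ Icc 1 p, (k:ℝ)⁻¹ ≤ 1 + Real.log P := by
    rcases Nat.eq_zero_or_pos p with h0 | h0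
    · rw [h0]; simp
      have := Real.log_nonneg hP
      linarith
    · have := harmonic_le_one_add_log p
      rw [harmonic_eq_sum_Icc] at this
      push_cast at this
      have h2 : Real.log p ≤ Real.log P := Real.log_le_log (by exact_mod_cast h0) hpP
      linarith
  have hdiff : Real.log y - Real.log P - 1 ≤ ∑ k ∈ (Icc 1 ⌊y⌋₊).filter (fun k : ℕ => P ≤ k), (k:ℝ)⁻¹ := by
    have h1 : ∑ k ∈ Icc 1 ⌊y⌋₊, (k:ℝ)⁻¹ = ∑ k ∈ (Icc 1 ⌊y⌋₊).filter (fun k : ℕ => P ≤ k), (k:ℝ)⁻¹ +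
        ∑ k ∈ (Icc 1 ⌊y⌋₊).filter (fun k : ℕ => ¬ P ≤ k), (k:ℝ)⁻¹ := (sum_filter_add_sum_filter_not _ _ _).symm
    have h2 : ∑ k ∈ (Icc 1 ⌊y⌋₊).filter (fun k : ℕ => ¬ P ≤ k), (k:ℝ)⁻¹ ≤ ∑ k ∈ Icc 1 p, (k:ℝ)⁻¹ := by
      refine sum_le_sum_of_subset_of_nonneg ?_ fun k _ _ => by positivity
      intro k hk
      rw [mem_filter, mem_Icc, not_le] at hk
      rw [mem_Icc]
      refine ⟨hk.1.1, ?_⟩
      have : k < ⌈P⌉₊ := Nat.lt_ceil.mpr hk.2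
      omega
    linarith
  have hlogy : Real.log Q - Real.log A ≤ Real.log y := by
    rw [hy, Real.log_div (by positivity) hr0.ne']
    have := Real.log_le_log hr0 hA
    linarith
  -- inject
  have hinj : ∑ k ∈ (Icc 1 ⌊y⌋₊).filter (fun k : ℕ => P ≤ k), 1 / ((r * k : ℕ) : ℝ) ≤
      ∑ m ∈ (Icc 1 n).filter (fun m : ℕ => P ≤ (m:ℝ) ∧ r ∣ m), 1 / (m:ℝ) := by
    rw [← sum_image (s := (Icc 1 ⌊y⌋₊).filter (fun k : ℕ => P ≤ k)) (g := fun k => r * k)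
      (f := fun m : ℕ => 1 / (m:ℝ))]
    · refine sum_le_sum_of_subset_of_nonneg ?_ fun k _ _ => by positivity
      intro m hm
      rw [mem_image] at hm
      obtain ⟨k, hk, rfl⟩ := hm
      rw [mem_filter, mem_Icc] at hk
      rw [mem_filter, mem_Icc]
      have hk1 : (1:ℝ) ≤ k := by exact_mod_cast hk.1.1
      have hr1 : (1:ℝ) ≤ r := by exact_mod_cast hr
      refine ⟨⟨Nat.mul_pos hr hk.1.1, ?_⟩, ?_, Dvd.intro _ rfl⟩
      · rw [hn]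
        apply Nat.le_floor
        have h3 : (k:ℝ) ≤ y := (Nat.cast_le.mpr hk.1.2).trans (Nat.floor_le hy0)
        rw [hy, le_div_iff₀ hr0] at h3
        push_cast
        linarith
      · push_cast
        nlinarith [hk.2]
    · intro k _ k' _ h
      exact Nat.eq_of_mul_eq_mul_left hr h
  rw [← sum_filter]
  refine le_trans ?_ hinj
  have h5 : ∑ k ∈ (Icc 1 ⌊y⌋₊).filter (fun k : ℕ => P ≤ k), 1 / ((r * k : ℕ) : ℝ) =
      (∑ k ∈ (Icc 1 ⌊y⌋₊).filter (fun k : ℕ => P ≤ k), (k:ℝ)⁻¹) / r := by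
    rw [sum_div]
    refine sum_congr rfl fun k _ => ?_
    push_cast
    rw [one_div, mul_inv, mul_comm, div_eq_mul_inv]
  rw [h5]
  gcongr
  linarith

/-- sums over products -/
lemma sum_prod_le (F : ℕ → ℕ → ℝ) (hF : ∀ l m, 0 ≤ F l m) (A B Y : ℕ) (h : A * B ≤ Y) :
    ∑ l ∈ Icc 1 A, ∑ m ∈ Icc 1 B, F l m ≤ ∑ n ∈ Icc 1 Y, ∑ x ∈ n.divisorsAntidiagonal, F x.1 x.2 := by
  rw [← sum_product' (s := Icc 1 A) (t := Icc 1 B) (f := F)]
  have hm : ∀ x ∈ (Icc 1 A) ×ˢ (Icc 1 B), x.1 * x.2 ∈ Icc 1 Y := by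
    intro x hx
    rw [mem_product, mem_Icc, mem_Icc] at hx
    rw [mem_Icc]
    exact ⟨Nat.mul_pos hx.1.1 hx.2.1, (Nat.mul_le_mul hx.1.2 hx.2.2).trans h⟩
  rw [← sum_fiberwise_of_maps_to hm]
  refine sum_le_sum fun n hn => ?_
  refine sum_le_sum_of_subset_of_nonneg ?_ fun x _ _ => hF _ _
  intro x hx
  rw [mem_filter] at hx
  rw [mem_Icc] at hn
  rw [Nat.mem_divisorsAntidiagonal]
  exact ⟨hx.2, by omega⟩

/-- the diagonal sum is large -/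
theorem SG_ge {N X P Q : ℝ} (hN : 1 ≤ N) (a : ℕ) (hP : 1 ≤ P) (hQ : 1 ≤ Q) (hX : N ^ a * Q ≤ X)
    (hΛ : 0 ≤ Real.log Q - Real.log P - Real.log (N ^ a) - 1) :
    (Real.log Q - Real.log P - Real.log (N ^ a) - 1) * WQ N a ≤ SG N X P Q a := by
  set Λ := Real.log Q - Real.log P - Real.log (N ^ a) - 1 with hΛd
  have hNa : 1 ≤ N ^ a := one_le_pow₀ hN
  set A := ⌊N ^ a⌋₊ with hA
  set B := ⌊Q⌋₊ with hB
  have hAB : A * B ≤ ⌊N ^ a * Q⌋₊ := by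
    apply Nat.le_floor
    push_cast
    exact mul_le_mul (Nat.floor_le (by linarith)) (Nat.floor_le (by linarith)) (Nat.cast_nonneg _) (by linarith)
  -- expand
  have e1 : SG N X P Q a = ∑ n ∈ Icc 1 ⌊N ^ a * Q⌋₊, ∑ x ∈ n.divisorsAntidiagonal,
      Aq N a x.1 * dI P Q x.2 * zA N X a (x.1 * x.2) / ((x.1 * x.2 : ℕ) : ℝ) := by
    unfold SG
    refine sum_congr rfl fun n hn => ?_
    have : gA N P Q a n = ∑ x ∈ n.divisorsAntidiagonal, Aq N a x.1 * dI P Q x.2 := by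
      unfold gA; rw [ArithmeticFunction.mul_apply]
    rw [this, mul_sum, sum_div]
    refine sum_congr rfl fun x hx => ?_
    rw [Nat.mem_divisorsAntidiagonal] at hx
    rw [hx.1]
    ring
  have hz0 : ∀ n : ℕ, (n:ℝ) ≤ X → 0 ≤ zA N X a n := fun n hn => (zA_bd N X a n hn).1
  have hzall : ∀ n : ℕ, 0 ≤ zA N X a n := by
    intro n
    have e : zA N X a = Aq N a * cA 1 X 1 := rfl
    rw [e, ArithmeticFunction.mul_apply]
    exact sum_nonneg fun x _ => mul_nonneg (Aq_nonneg N a _) (cA_nonneg 1 X zero_le_one _)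
  have h1 : ∑ l ∈ Icc 1 A, ∑ m ∈ Icc 1 B, Aq N a l * dI P Q m * zA N X a (l * m) / ((l * m : ℕ) : ℝ) ≤
      SG N X P Q a := by
    rw [e1]
    exact sum_prod_le (fun l m => Aq N a l * dI P Q m * zA N X a (l * m) / ((l * m : ℕ) : ℝ))
      (fun l m => by
        have := Aq_nonneg N a l
        have := dI_nonneg P Q m
        have := hzall (l * m)
        positivity) A B _ hAB
  refine le_trans ?_ h1
  unfold WQ
  rw [mul_sum]
  refine sum_le_sum fun l hl => ?_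
  rw [mem_Icc] at hl
  have hl0 : (0:ℝ) < l := by exact_mod_cast hl.1
  -- inner
  have h2 : ∑ m ∈ Icc 1 B, Aq N a l * dI P Q m * zA N X a (l * m) / ((l * m : ℕ) : ℝ) =
      ∑ k ∈ Icc 1 A, Aq N a l * Aq N a k * (1 / l) *
        ∑ m ∈ Icc 1 B, (if (P ≤ (m:ℝ) ∧ k ∣ l * m) then 1 / (m:ℝ) else 0) := by
    have h3 : ∀ m ∈ Icc 1 B, Aq N a l * dI P Q m * zA N X a (l * m) / ((l * m : ℕ) : ℝ) =
        ∑ k ∈ Icc 1 A, Aq N a l * Aq N a k * (1 / l) * (if (P ≤ (m:ℝ) ∧ k ∣ l * m) then 1 / (m:ℝ) else 0) := by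
      intro m hm
      rw [mem_Icc] at hm
      have hm0 : (0:ℝ) < m := by exact_mod_cast hm.1
      have hmQ : (m:ℝ) ≤ Q := (Nat.cast_le.mpr hm.2).trans (Nat.floor_le (by linarith))
      have hlm : ((l * m : ℕ) : ℝ) ≤ X := by
        refine le_trans ?_ hX
        push_cast
        exact mul_le_mul ((Nat.cast_le.mpr hl.2).trans (Nat.floor_le (by linarith))) hmQ hm0.le (by linarith)
      rw [zA_sum hN a (l * m) (Nat.mul_ne_zero (by omega) (by omega)) hlm, mul_sum, sum_div]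
      refine sum_congr rfl fun k _ => ?_
      rw [dI_apply]
      by_cases h4 : P ≤ (m:ℝ)
      · by_cases h5 : k ∣ l * m
        · rw [if_pos ⟨by omega, h4, hmQ⟩, if_pos h5, if_pos ⟨h4, h5⟩]
          push_cast
          field_simp
        · rw [if_neg h5, if_neg (show ¬ (P ≤ (m:ℝ) ∧ k ∣ l * m) from fun h => h5 h.2)]
          simp
      · rw [if_neg (show ¬ (m ≠ 0 ∧ P ≤ (m:ℝ) ∧ (m:ℝ) ≤ Q) from fun h => h4 h.2.1),
          if_neg (show ¬ (P ≤ (m:ℝ) ∧ k ∣ l * m) from fun h => h4 h.1)]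
        simp
    rw [sum_congr rfl h3, sum_comm]
    refine sum_congr rfl fun k _ => ?_
    rw [mul_sum]
  rw [h2, mul_sum]
  refine sum_le_sum fun k hk => ?_
  rw [mem_Icc] at hk
  have hk0 : (0:ℝ) < k := by exact_mod_cast hk.1
  -- the divisor
  set g := Nat.gcd k l with hg
  have hgpos : 0 < g := Nat.gcd_pos_of_pos_left _ hk.1
  obtain ⟨r, hr⟩ : g ∣ k := Nat.gcd_dvd_left _ _
  have hr1 : 1 ≤ r := by
    rcases Nat.eq_zero_or_pos r with h0 | h0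
    · rw [h0, mul_zero] at hr; omega
    · exact h0
  have hdvd : ∀ m : ℕ, r ∣ m → k ∣ l * m := by
    intro m hm
    obtain ⟨c, rfl⟩ := hm
    obtain ⟨d, hd⟩ : g ∣ l := Nat.gcd_dvd_right _ _
    refine ⟨d * c, ?_⟩
    rw [hr, hd]
    ring
  have hrA : (r:ℝ) ≤ N ^ a := by
    have h3 : r ≤ k := Nat.le_of_dvd hk.1 ⟨g, by rw [mul_comm]; exact hr⟩
    calc (r:ℝ) ≤ k := by exact_mod_cast h3
      _ ≤ A := by exact_mod_cast hk.2
      _ ≤ N ^ a := Nat.floor_le (by linarith)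
  have h6 := harm_mult hr1 P hP (N ^ a) Q hrA hQ hB
  have h7 : ∑ m ∈ Icc 1 B, (if (P ≤ (m:ℝ) ∧ r ∣ m) then 1 / (m:ℝ) else 0) ≤
      ∑ m ∈ Icc 1 B, (if (P ≤ (m:ℝ) ∧ k ∣ l * m) then 1 / (m:ℝ) else 0) := by
    refine sum_le_sum fun m _ => ?_
    by_cases h8 : P ≤ (m:ℝ) ∧ r ∣ m
    · rw [if_pos h8, if_pos ⟨h8.1, hdvd m h8.2⟩]
    · rw [if_neg h8]
      split_ifs
      · positivity
      · exact le_refl _
  have hr0 : (0:ℝ) < r := by exact_mod_cast hr1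
  have hlcm : (Nat.lcm l k : ℝ) = l * r := by
    have h9 : g * Nat.lcm k l = k * l := Nat.gcd_mul_lcm k l
    have h10 : Nat.lcm k l = r * l := by
      have h11 : g * Nat.lcm k l = g * (r * l) := by
        rw [h9]
        calc k * l = (g * r) * l := by rw [← hr]
          _ = _ := by ring
      exact Nat.eq_of_mul_eq_mul_left hgpos h11
    rw [Nat.lcm_comm, h10]
    push_cast
    ring
  have hA1 := Aq_nonneg N a l
  have hA2 := Aq_nonneg N a k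
  calc Λ * (Aq N a l * Aq N a k / (Nat.lcm l k : ℝ)) = Aq N a l * Aq N a k * (1 / l) * (Λ / r) := by
        rw [hlcm]; field_simp
    _ ≤ Aq N a l * Aq N a k * (1 / l) *
        ∑ m ∈ Icc 1 B, (if (P ≤ (m:ℝ) ∧ k ∣ l * m) then 1 / (m:ℝ) else 0) := by
        refine mul_le_mul_of_nonneg_left (h6.trans h7) (by positivity)

/-- the quadratic form is large -/
theorem WQ_ge {N : ℝ} (hN : 1 ≤ N) (a : ℕ) :
    ∑ n ∈ Icc 1 ⌊N⌋₊, dv ((a:ℝ) / 2 + 1) n ^ 2 / n ≤ (1 + Real.log N) * WQ N a := by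
  set A := ⌊N ^ a⌋₊ with hA
  have h1 : ∀ n ∈ Icc 1 ⌊N⌋₊, dv ((a:ℝ) / 2 + 1) n ^ 2 / n =
      ∑ l ∈ Icc 1 A, ∑ m ∈ Icc 1 A, Aq N a l * Aq N a m * (if Nat.lcm l m ∣ n then 1 / (n:ℝ) else 0) := by
    intro n hn
    obtain ⟨hn1, hn2⟩ := mem_real hn
    rw [← zA_eq N N le_rfl a n hn2, zA_sum hN a n (by omega) hn2, sq, sum_mul_sum, sum_div]
    refine sum_congr rfl fun l _ => ?_
    rw [sum_div]
    refine sum_congr rfl fun m _ => ?_
    by_cases h2 : l ∣ n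
    · by_cases h3 : m ∣ n
      · rw [if_pos h2, if_pos h3, if_pos (Nat.lcm_dvd h2 h3)]; ring
      · rw [if_neg h3, if_neg (fun h => h3 ((Nat.dvd_lcm_right l m).trans h))]; simp
    · rw [if_neg h2, if_neg (fun h => h2 ((Nat.dvd_lcm_left l m).trans h))]; simp
  rw [sum_congr rfl h1, sum_comm]
  unfold WQ
  rw [mul_sum]
  refine sum_le_sum fun l hl => ?_
  rw [sum_comm, mul_sum]
  refine sum_le_sum fun m hm => ?_
  rw [mem_Icc] at hl hm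
  rw [← mul_sum]
  have hA1 := Aq_nonneg N a l
  have hA2 := Aq_nonneg N a m
  set c := Nat.lcm l m with hc
  have hc1 : 1 ≤ c := Nat.lcm_pos hl.1 hm.1
  have hc0 : (0:ℝ) < c := by exact_mod_cast hc1
  have hlogN := Real.log_nonneg hN
  have h4 : ∑ n ∈ Icc 1 ⌊N⌋₊, (if c ∣ n then 1 / (n:ℝ) else 0) ≤ (1 + Real.log N) / c := by
    rw [← sum_filter]
    have h5 : (Icc 1 ⌊N⌋₊).filter (fun n => c ∣ n) ⊆ (Icc 1 ⌊N⌋₊).image (fun k => c * k) := by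
      intro n hn
      rw [mem_filter, mem_Icc] at hn
      obtain ⟨k, rfl⟩ := hn.2
      rw [mem_image]
      refine ⟨k, ?_, rfl⟩
      rw [mem_Icc]
      constructor
      · by_contra h
        have : k = 0 := by omega
        rw [this, mul_zero] at hn
        omega
      · exact (Nat.le_mul_of_pos_left k hc1).trans hn.1.2
    calc ∑ n ∈ (Icc 1 ⌊N⌋₊).filter (fun n => c ∣ n), 1 / (n:ℝ) ≤
        ∑ n ∈ (Icc 1 ⌊N⌋₊).image (fun k => c * k), 1 / (n:ℝ) :=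
          sum_le_sum_of_subset_of_nonneg h5 fun k _ _ => by positivity
      _ = ∑ k ∈ Icc 1 ⌊N⌋₊, 1 / ((c * k : ℕ) : ℝ) := by
          rw [sum_image]
          intro k _ k' _ h
          exact Nat.eq_of_mul_eq_mul_left hc1 h
      _ = (∑ k ∈ Icc 1 ⌊N⌋₊, (k:ℝ)⁻¹) / c := by
          rw [sum_div]
          refine sum_congr rfl fun k _ => ?_
          push_cast
          rw [one_div, mul_inv, mul_comm, div_eq_mul_inv]
      _ ≤ (1 + Real.log N) / c := by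
          gcongr
          have := harmonic_floor_le_one_add_log N hN
          rw [harmonic_eq_sum_Icc] at this
          push_cast at this
          exact this
  calc Aq N a l * Aq N a m * ∑ n ∈ Icc 1 ⌊N⌋₊, (if c ∣ n then 1 / (n:ℝ) else 0) ≤
      Aq N a l * Aq N a m * ((1 + Real.log N) / c) := by gcongr
    _ = (1 + Real.log N) * (Aq N a l * Aq N a m / c) := by ring

end

end Pool.Agent.K7.H52.MD
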