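import Pool.Agent.K7.H52.MD.A
import Pool.Agent.R311.SE.P
import Pool.Agent.R311.BS.W

set_option autoImplicit false

/-! Window averages: zeta against the test function, and a trigonometric polynomial against it. -/

namespace Pool.Agent.K7.H52.MD

open Finset MeasureTheory Filter Topology
open Pool.Agent.H306R2 Pool.Agent.R311.BS Pool.Agent.R311.SE

noncomputable section

/-- a trigonometric polynomial -/
def TP {ι : Type*} (M : Finset ι) (c : ι → ℂ) (ω : ι → ℝ) (t : ℝ) : ℂ := ∑ i ∈ M, c i * ex (ω i) t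

lemma TP_cont {ι : Type*} (M : Finset ι) (c : ι → ℂ) (ω : ι → ℝ) : Continuous (TP M c ω) :=
  continuous_finsetSum _ fun i _ => (ex_cont _).const_mul _ |>.congr fun _ => rfl

lemma TP_norm {ι : Type*} (M : Finset ι) (c : ι → ℂ) (ω : ι → ℝ) (t : ℝ) :
    ‖TP M c ω t‖ ≤ ∑ i ∈ M, ‖c i‖ := by
  unfold TP
  refine norm_sum_le_of_le _ fun i _ => ?_
  rw [norm_mul, ex_norm, mul_one]

/-- far frequencies, with supports -/
lemma TT_far (f g : ℕ → ℝ) (X Y τ H ω : ℝ)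
    (h : ∀ n l : ℕ, 1 ≤ n → f n ≠ 0 → 1 ≤ l → g l ≠ 0 → 1 ≤ |ω - Real.log n + Real.log l|) :
    ‖TT f g X Y τ H ω‖ ≤ l1 f X * l1 g Y * gq H 1 := by
  refine (TT_le f g X Y τ H 1 ω zero_le_one).trans ?_
  have : NN f g X Y 1 ω = 0 := by
    unfold NN
    refine sum_eq_zero fun n hn => sum_eq_zero fun l hl => ?_
    rw [mem_Icc] at hn hl
    by_cases hf : f n = 0
    · rw [hf]; simp
    · by_cases hg : g l = 0
      · rw [hg]; simp
      · rw [if_neg]
        rw [not_lt]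
        exact h n l hn.1 hf hl.1 hg
  rw [this, zero_add]

/-- zeta against the test function -/
theorem LG (N X P Q : ℝ) (a : ℕ) (Z ρ τ H R e₁ L : ℝ) (hN : 1 ≤ N) (hQ : 1 ≤ Q) (hX : 1 ≤ X)
    (hQX : Q ≤ X) (hρ : 0 ≤ ρ) (hρ1 : ρ ≤ 1) (hZ : N ^ a * Q * Real.exp 1 ≤ Z)
    (hρ2 : ρ ≤ 1 / Z) (hH : 0 < H) (hR : 0 ≤ R) (he₁ : 0 ≤ e₁)
    (hL1 : l1 (zA N X a) (N ^ a * X) ≤ L) (hL2 : l1 (gA N P Q a) (N ^ a * Q) ≤ L)
    (happ : ∀ t ∈ Set.Ioc (τ - R) (τ + R), ‖zl t - zX X t‖ ≤ e₁) :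
    ‖(∫ t in Set.Ioc (τ - R) (τ + R), (zl t * AL N t ^ a * (starRingEnd ℂ) (TG N P Q a t)) * (gw τ H t : ℂ)) -
      ((SG N X P Q a : ℝ) : ℂ)‖ ≤
    L * L * gq H ρ + L * L * (2 * Real.exp (-(R ^ 2 / (2 * H ^ 2)))) + e₁ * (N ^ a * (N ^ a * (2 * Real.sqrt Q))) := by
  have hX0 : 0 ≤ X := by linarith
  have hL0 : 0 ≤ L := (l1_nonneg _ _).trans hL2
  set Y := N ^ a * Q with hYd
  set Xf := N ^ a * X with hXfd
  have hNa : 1 ≤ N ^ a := one_le_pow₀ hN
  have hY1 : 1 ≤ Y := one_le_mul_of_one_le_of_one_le hNa hQ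
  have hYX : Y ≤ Xf := by rw [hYd, hXfd]; gcongr
  obtain ⟨hGint0, hGval0⟩ := expansion ({0} : Finset ℤ) (fun _ => (1:ℂ)) (fun _ => (0:ℝ)) (zA N X a)
    (gA N P Q a) Xf Y τ H hH
  set G : ℝ → ℂ := fun t => ((∑ m ∈ ({0} : Finset ℤ), (1:ℂ) * ex 0 t) * Dp (zA N X a) Xf (1 / 2 + t * Complex.I) *
      (starRingEnd ℂ) (Dp (gA N P Q a) Y (1 / 2 + t * Complex.I))) * (gw τ H t : ℂ) with hG
  have hGint : Integrable G := hGint0
  have hGval : ∫ t, G t = TT (zA N X a) (gA N P Q a) Xf Y τ H 0 := by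
    rw [hG, hGval0, sum_singleton]
    unfold TT
    simp only [one_mul]
  have hLL : l1 (zA N X a) Xf * l1 (gA N P Q a) Y ≤ L * L := mul_le_mul hL1 hL2 (l1_nonneg _ _) hL0
  have hmain : ‖(∫ t, G t) - ((SG N X P Q a : ℝ) : ℂ)‖ ≤ L * L * gq H ρ := by
    rw [hGval]
    have h2 := zero_freq (zA N X a) (gA N P Q a) Xf Y Z ρ τ H hY1 hYX hρ hρ1 hZ hρ2
    exact h2.trans (mul_le_mul_of_nonneg_right hLL (gq_nonneg H ρ))
  set I := Set.Ioc (τ - R) (τ + R) with hI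
  have hImeas : MeasurableSet I := measurableSet_Ioc
  have hgwI := gw_integrable τ H hH
  have hex0 : ∀ t : ℝ, (∑ m ∈ ({0} : Finset ℤ), (1:ℂ) * ex 0 t) = 1 := by
    intro t
    rw [sum_singleton]; unfold ex; simp
  have hout : ‖∫ t in Iᶜ, G t‖ ≤ L * L * (2 * Real.exp (-(R ^ 2 / (2 * H ^ 2)))) := by
    calc ‖∫ t in Iᶜ, G t‖ ≤ ∫ t in Iᶜ, ‖G t‖ := norm_integral_le_integral_norm _
      _ ≤ ∫ t in Iᶜ, (L * L) * gw τ H t := by
          refine setIntegral_mono_on hGint.norm.integrableOn (hgwI.const_mul _).integrableOn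
            hImeas.compl fun t _ => ?_
          rw [hG]
          simp only
          have hg := gw_nonneg τ H t hH
          have h0 := hex0 t
          rw [h0, one_mul, norm_mul, norm_mul, RCLike.norm_conj, Complex.norm_real,
            Real.norm_of_nonneg hg]
          have a2 : ‖Dp (zA N X a) Xf (1 / 2 + t * Complex.I)‖ ≤ L := (Dp_line_norm _ _ _).trans hL1
          have a3 : ‖Dp (gA N P Q a) Y (1 / 2 + t * Complex.I)‖ ≤ L := (Dp_line_norm _ _ _).trans hL2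
          gcongr
      _ = (L * L) * ∫ t in Iᶜ, gw τ H t := integral_const_mul _ _
      _ ≤ (L * L) * (2 * Real.exp (-(R ^ 2 / (2 * H ^ 2)))) := by
          gcongr
          exact gw_tail τ H R hH hR
  set G' : ℝ → ℂ := fun t => (zl t * AL N t ^ a * (starRingEnd ℂ) (TG N P Q a t)) * (gw τ H t : ℂ) with hG'
  have hG'c : Continuous G' := by
    rw [hG']
    have c1 := AL_cont N
    have c4 := zl_cont
    have c5 : Continuous fun t : ℝ => (starRingEnd ℂ) (TG N P Q a t) :=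
      Complex.continuous_conj.comp (TG_cont N P Q a)
    have c7 : Continuous fun t : ℝ => (gw τ H t : ℂ) := Complex.continuous_ofReal.comp (gw_continuous τ H)
    fun_prop
  have hG'I : IntegrableOn G' I := (hG'c.integrableOn_Icc (a := τ - R) (b := τ + R)).mono_set
    Set.Ioc_subset_Icc_self
  have happx : ‖(∫ t in I, G' t) - ∫ t in I, G t‖ ≤ e₁ * (N ^ a * (N ^ a * (2 * Real.sqrt Q))) := by
    rw [← integral_sub hG'I hGint.integrableOn]
    calc ‖∫ t in I, (G' t - G t)‖ ≤ ∫ t in I, ‖G' t - G t‖ := norm_integral_le_integral_norm _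
      _ ≤ ∫ t in I, e₁ * (N ^ a * (N ^ a * (2 * Real.sqrt Q))) * gw τ H t := by
          refine setIntegral_mono_on (hG'I.sub hGint.integrableOn).norm
            (hgwI.const_mul _).integrableOn hImeas fun t ht => ?_
          have e1 : G' t - G t = ((zl t - zX X t) * AL N t ^ a * (starRingEnd ℂ) (TG N P Q a t)) * (gw τ H t : ℂ) := by
            rw [hG, hG']
            simp only
            have h0 := hex0 t
            rw [h0, hXfd, zA_Dp N X hN hX0]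
            have : TG N P Q a t = Dp (gA N P Q a) Y (1 / 2 + t * Complex.I) := rfl
            rw [this]
            ring
          have hg := gw_nonneg τ H t hH
          rw [e1, norm_mul, norm_mul, norm_mul, RCLike.norm_conj, norm_pow,
            Complex.norm_real, Real.norm_of_nonneg hg]
          have b1 := happ t ht
          have a3 := AL_norm N hN t
          have a4 := TG_norm (P := P) hN (by linarith : 0 ≤ Q) a t
          calc _ ≤ (e₁ * N ^ a * (N ^ a * (2 * Real.sqrt Q))) * gw τ H t := by gcongr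
            _ = _ := by ring
      _ ≤ ∫ t, e₁ * (N ^ a * (N ^ a * (2 * Real.sqrt Q))) * gw τ H t := by
          refine setIntegral_le_integral (hgwI.const_mul _) (Eventually.of_forall fun t => ?_)
          have := gw_nonneg τ H t hH
          simp only [Pi.zero_apply]
          positivity
      _ = e₁ * (N ^ a * (N ^ a * (2 * Real.sqrt Q))) := by
          rw [integral_const_mul, gw_integral τ H hH, mul_one]
  have hsplit := integral_add_compl hImeas hGint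
  have e2 : (∫ t in I, G' t) - ((SG N X P Q a : ℝ) : ℂ) =
      ((∫ t in I, G' t) - ∫ t in I, G t) + ((∫ t, G t) - ((SG N X P Q a : ℝ) : ℂ)) -
        ∫ t in Iᶜ, G t := by
    rw [← hsplit]; ring
  rw [e2]
  refine (norm_sub_le _ _).trans ?_
  have h5 := norm_add_le ((∫ t in I, G' t) - ∫ t in I, G t) ((∫ t, G t) - ((SG N X P Q a : ℝ) : ℂ))
  linarith

/-- a trigonometric polynomial without resonance against the test function -/
theorem LB {ι : Type*} (M : Finset ι) (c : ι → ℂ) (ω : ι → ℝ) (K : ℝ) (hK : ∑ i ∈ M, ‖c i‖ ≤ K)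
    (N P Q : ℝ) (a : ℕ) (τ H R L : ℝ) (hN : 1 ≤ N) (hH : 0 < H) (hR : 0 ≤ R)
    (hL1 : l1 (Aq N a) (N ^ a) ≤ L) (hL2 : l1 (gA N P Q a) (N ^ a * Q) ≤ L)
    (hnr : ∀ i ∈ M, ∀ n l : ℕ, 1 ≤ n → (n:ℝ) ≤ N ^ a → 1 ≤ l → P ≤ l → (l:ℝ) ≤ N ^ a * Q →
      1 ≤ |ω i - Real.log n + Real.log l|) :
    ‖∫ t in Set.Ioc (τ - R) (τ + R), (TP M c ω t * AL N t ^ a * (starRingEnd ℂ) (TG N P Q a t)) * (gw τ H t : ℂ)‖ ≤
    K * (L * L * gq H 1 + L * L * (2 * Real.exp (-(R ^ 2 / (2 * H ^ 2))))) := by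
  have hK0 : 0 ≤ K := (sum_nonneg fun _ _ => norm_nonneg _).trans hK
  have hL0 : 0 ≤ L := (l1_nonneg _ _).trans hL2
  set Y := N ^ a * Q with hYd
  obtain ⟨hGint0, hGval0⟩ := expansion M c ω (Aq N a) (gA N P Q a) (N ^ a) Y τ H hH
  have e0 : ∀ t : ℝ, ((∑ i ∈ M, c i * ex (ω i) t) * Dp (Aq N a) (N ^ a) (1 / 2 + t * Complex.I) *
      (starRingEnd ℂ) (Dp (gA N P Q a) Y (1 / 2 + t * Complex.I))) * (gw τ H t : ℂ) =
      (TP M c ω t * AL N t ^ a * (starRingEnd ℂ) (TG N P Q a t)) * (gw τ H t : ℂ) := by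
    intro t
    rw [Aq_Dp N hN]
    rfl
  simp only [e0] at hGint0 hGval0
  set G : ℝ → ℂ := fun t => (TP M c ω t * AL N t ^ a * (starRingEnd ℂ) (TG N P Q a t)) * (gw τ H t : ℂ) with hG
  have hGint : Integrable G := hGint0
  have hLL : l1 (Aq N a) (N ^ a) * l1 (gA N P Q a) Y ≤ L * L := mul_le_mul hL1 hL2 (l1_nonneg _ _) hL0
  have hval : ‖∫ t, G t‖ ≤ K * (L * L * gq H 1) := by
    have e1 : ∫ t, G t = ∑ i ∈ M, c i * TT (Aq N a) (gA N P Q a) (N ^ a) Y τ H (ω i) := by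
      rw [hG, hGval0]
      refine sum_congr rfl fun i _ => ?_
      unfold TT
      rw [mul_sum]
      refine sum_congr rfl fun n _ => ?_
      rw [mul_sum]
      refine sum_congr rfl fun l _ => ?_
      ring
    rw [e1]
    have h1 : ∀ i ∈ M, ‖c i * TT (Aq N a) (gA N P Q a) (N ^ a) Y τ H (ω i)‖ ≤ ‖c i‖ * (L * L * gq H 1) := by
      intro i hi
      rw [norm_mul]
      refine mul_le_mul_of_nonneg_left ?_ (norm_nonneg _)
      refine (TT_far _ _ _ _ τ H _ fun n l hn hf hl hg => ?_).trans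
        (mul_le_mul_of_nonneg_right hLL (gq_nonneg H 1))
      refine hnr i hi n l hn ?_ hl (gA_supp hN a l hg).1 (gA_supp hN a l hg).2
      by_contra h
      rw [not_le] at h
      exact hf (Aq_supp N hN a n h)
    refine (norm_sum_le_of_le _ h1).trans ?_
    rw [← sum_mul]
    have hg := gq_nonneg H 1
    exact mul_le_mul_of_nonneg_right hK (by positivity)
  set I := Set.Ioc (τ - R) (τ + R) with hI
  have hImeas : MeasurableSet I := measurableSet_Ioc
  have hgwI := gw_integrable τ H hH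
  have hout : ‖∫ t in Iᶜ, G t‖ ≤ K * (L * L * (2 * Real.exp (-(R ^ 2 / (2 * H ^ 2))))) := by
    calc ‖∫ t in Iᶜ, G t‖ ≤ ∫ t in Iᶜ, ‖G t‖ := norm_integral_le_integral_norm _
      _ ≤ ∫ t in Iᶜ, K * (L * L) * gw τ H t := by
          refine setIntegral_mono_on hGint.norm.integrableOn (hgwI.const_mul _).integrableOn
            hImeas.compl fun t _ => ?_
          rw [hG]
          simp only
          have hg := gw_nonneg τ H t hH
          rw [norm_mul, norm_mul, norm_mul, RCLike.norm_conj, norm_pow, Complex.norm_real,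
            Real.norm_of_nonneg hg]
          have a1 : ‖TP M c ω t‖ ≤ K := (TP_norm M c ω t).trans hK
          have a2 : ‖AL N t‖ ^ a ≤ L := by
            rw [← norm_pow, ← Aq_Dp N hN]
            exact (Dp_line_norm _ _ _).trans hL1
          have a3 : ‖TG N P Q a t‖ ≤ L := (Dp_line_norm _ _ _).trans hL2
          calc _ ≤ K * L * L * gw τ H t := by gcongr
            _ = _ := by ring
      _ = K * (L * L) * ∫ t in Iᶜ, gw τ H t := integral_const_mul _ _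
      _ ≤ K * (L * L) * (2 * Real.exp (-(R ^ 2 / (2 * H ^ 2)))) := by
          gcongr
          exact gw_tail τ H R hH hR
      _ = _ := by ring
  have hsplit := integral_add_compl hImeas hGint
  have e2 : (∫ t in I, G t) = (∫ t, G t) - ∫ t in Iᶜ, G t := by
    rw [← hsplit]; ring
  change ‖∫ t in I, G t‖ ≤ _
  rw [e2]
  refine (norm_sub_le _ _).trans ?_
  linarith

/-- the mean square of the test polynomial -/
theorem sq_G (N X P Q : ℝ) (a : ℕ) (hN : 1 ≤ N) (hQ : 1 ≤ Q) (hQX : N ^ a * Q ≤ X) (Z ρ τ H L : ℝ) (hH : 0 < H)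
    (hρ : 0 ≤ ρ) (hρ1 : ρ ≤ 1) (hZ : N ^ a * Q * Real.exp 1 ≤ Z) (hρ2 : ρ ≤ 1 / Z)
    (hL : l1 (gA N P Q a) (N ^ a * Q) ≤ L) :
    Integrable (fun t : ℝ => ‖TG N P Q a t‖ ^ 2 * gw τ H t) ∧
    ∫ t : ℝ, ‖TG N P Q a t‖ ^ 2 * gw τ H t ≤
      (∑ n ∈ Icc 1 ⌊N ^ a * Q⌋₊, dv ((a:ℝ) / 2 + 1) n * dv ((a:ℝ) / 2 + 1) n / n) + L * L * gq H ρ := by
  set Y := N ^ a * Q with hYd
  have hNa : 1 ≤ N ^ a := one_le_pow₀ hN
  have hY1 : 1 ≤ Y := one_le_mul_of_one_le_of_one_le hNa hQ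
  have hQX' : Q ≤ X := by
    have : Q ≤ Y := by rw [hYd]; nlinarith
    linarith
  obtain ⟨h1, h2⟩ := expansion ({0} : Finset ℤ) (fun _ => (1:ℂ)) (fun _ => (0:ℝ)) (gA N P Q a) (gA N P Q a)
    Y Y τ H hH
  have e1 : ∀ t : ℝ, ((∑ i ∈ ({0} : Finset ℤ), (1:ℂ) * ex 0 t) * Dp (gA N P Q a) Y (1 / 2 + t * Complex.I) *
      (starRingEnd ℂ) (Dp (gA N P Q a) Y (1 / 2 + t * Complex.I))) * (gw τ H t : ℂ) =
      ((‖TG N P Q a t‖ ^ 2 * gw τ H t : ℝ) : ℂ) := by
    intro t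
    have e0 : ex 0 t = 1 := by unfold ex; simp
    rw [sum_singleton, e0, one_mul, one_mul, Complex.mul_conj, Complex.normSq_eq_norm_sq]
    push_cast
    rfl
  simp only [e1] at h1 h2
  have hint : Integrable (fun t : ℝ => ‖TG N P Q a t‖ ^ 2 * gw τ H t) := by
    refine h1.re.congr (Eventually.of_forall fun t => ?_)
    exact Complex.ofReal_re _
  refine ⟨hint, ?_⟩
  have h3 : ∑ i ∈ ({0} : Finset ℤ), ∑ n ∈ Icc 1 ⌊Y⌋₊, ∑ l ∈ Icc 1 ⌊Y⌋₊,
      ((1:ℂ) * ((gA N P Q a n * (Real.sqrt n)⁻¹ : ℝ) : ℂ) * ((gA N P Q a l * (Real.sqrt l)⁻¹ : ℝ) : ℂ)) *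
        (ex (0 - Real.log n + Real.log l) τ * (gq H (0 - Real.log n + Real.log l) : ℝ)) =
      TT (gA N P Q a) (gA N P Q a) Y Y τ H 0 := by
    rw [sum_singleton]
    unfold TT
    simp only [one_mul]
  rw [h3, integral_complex_ofReal] at h2
  have h4 := zero_freq (gA N P Q a) (gA N P Q a) Y Y Z ρ τ H hY1 le_rfl hρ hρ1 hZ hρ2
  rw [← h2, ← Complex.ofReal_sub, Complex.norm_real, Real.norm_eq_abs] at h4
  have h5 := (abs_le.mp h4).2
  have hL0 : 0 ≤ L := (l1_nonneg _ _).trans hL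
  have h6 : l1 (gA N P Q a) Y * l1 (gA N P Q a) Y * gq H ρ ≤ L * L * gq H ρ := by
    have := gq_nonneg H ρ
    have := l1_nonneg (gA N P Q a) Y
    gcongr
  have h7 : ∑ n ∈ Icc 1 ⌊Y⌋₊, gA N P Q a n * gA N P Q a n / n ≤
      ∑ n ∈ Icc 1 ⌊Y⌋₊, dv ((a:ℝ) / 2 + 1) n * dv ((a:ℝ) / 2 + 1) n / n := by
    refine sum_le_sum fun n hn => ?_
    obtain ⟨hn1, hn2⟩ := mem_real hn
    have h8 : gA N P Q a n ≤ dv ((a:ℝ) / 2 + 1) n :=
      (gA_le_zA hQX' a n).trans (zA_bd N X a n (hn2.trans hQX)).2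
    have h9 := gA_nonneg N P Q a n
    have h10 := h9.trans h8
    gcongr
  linarith

end

end Pool.Agent.K7.H52.MD
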