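import Pool.Agent.K7.H52.MD.B

set_option autoImplicit false

/-! The inequality in one window. -/

namespace Pool.Agent.K7.H52.MD

open Finset MeasureTheory Filter Topology
open Pool.Agent.H306R2 Pool.Agent.R311.BS Pool.Agent.R311.SE

noncomputable section

section
variable {ι : Type*} (M : Finset ι) (c : ι → ℂ) (ω : ι → ℝ)

/-- the mixed mass -/
def VV (N P Q : ℝ) (a : ℕ) (τ H R : ℝ) : ℝ :=
  ∫ t in Set.Ioc (τ - R) (τ + R), ‖zl t - TP M c ω t‖ * (‖AL N t‖ ^ a * ‖TG N P Q a t‖) * gw τ H t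

/-- the mean of the distance -/
def GG (q : ℕ) (τ H R : ℝ) : ℝ :=
  ∫ t in Set.Ioc (τ - R) (τ + R), ‖zl t - TP M c ω t‖ ^ q * gw τ H t

lemma contI {F : ℝ → ℂ} (hF : Continuous F) (a b : ℝ) : IntegrableOn F (Set.Ioc a b) :=
  hF.integrableOn_Icc.mono_set Set.Ioc_subset_Icc_self

lemma contIr {F : ℝ → ℝ} (hF : Continuous F) (a b : ℝ) : IntegrableOn F (Set.Ioc a b) :=
  hF.integrableOn_Icc.mono_set Set.Ioc_subset_Icc_self

/-- Young's inequality -/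
theorem VV_le (q : ℕ) (hq : 2 ≤ q) (N P Q X : ℝ) (hN : 1 ≤ N) (hQ : 1 ≤ Q)
    (hQX : N ^ (q - 2) * Q ≤ X) (Z ρ τ H R L μ : ℝ) (hH : 0 < H)
    (hρ : 0 ≤ ρ) (hρ1 : ρ ≤ 1) (hZ : N ^ (q - 2) * Q * Real.exp 1 ≤ Z) (hZ' : N ^ q * Real.exp 1 ≤ Z)
    (hρ2 : ρ ≤ 1 / Z) (hμ : 0 < μ)
    (hL : l1 (gA N P Q (q - 2)) (N ^ (q - 2) * Q) ≤ L) (hL' : l1 (Aq N q) (N ^ q) ≤ L) :
    VV M c ω N P Q (q - 2) τ H R ≤
      μ * ((∑ n ∈ Icc 1 ⌊N ^ q⌋₊, dv ((q:ℝ) / 2) n * dv ((q:ℝ) / 2) n / n) +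
        (∑ n ∈ Icc 1 ⌊N ^ (q - 2) * Q⌋₊, dv ((q:ℝ) / 2) n * dv ((q:ℝ) / 2) n / n) + 2 * (L * L * gq H ρ)) +
      (μ⁻¹) ^ (q - 1) * GG M c ω q τ H R := by
  obtain ⟨i1, h1⟩ := sq_mean N hN q Z ρ τ H L hH hρ hρ1 hZ' hρ2 hL'
  obtain ⟨i2, h2⟩ := sq_G N X P Q (q - 2) hN hQ hQX Z ρ τ H L hH hρ hρ1 hZ hρ2 hL
  have e : (((q - 2 : ℕ) : ℝ)) / 2 + 1 = (q:ℝ) / 2 := by
    rw [Nat.cast_sub hq]; push_cast; ring
  rw [e] at h2
  set I := Set.Ioc (τ - R) (τ + R) with hI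
  have c0 : Continuous fun t : ℝ => ‖zl t - TP M c ω t‖ := (zl_cont.sub (TP_cont M c ω)).norm
  have c1 := AL_cont N
  have c2 := TG_cont N P Q (q - 2)
  have c7 := gw_continuous τ H
  have hiV : IntegrableOn (fun t => ‖zl t - TP M c ω t‖ * (‖AL N t‖ ^ (q - 2) * ‖TG N P Q (q - 2) t‖) * gw τ H t) I :=
    contIr (by fun_prop) _ _
  have hiG : IntegrableOn (fun t => ‖zl t - TP M c ω t‖ ^ q * gw τ H t) I := contIr (by fun_prop) _ _
  have hsub : ∀ f : ℝ → ℝ, Integrable f → (∀ t, 0 ≤ f t) → ∫ t in I, f t ≤ ∫ t, f t := fun f hf h0 =>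
    setIntegral_le_integral hf (Eventually.of_forall h0)
  have hgw0 : ∀ t, 0 ≤ gw τ H t := fun t => gw_nonneg τ H t hH
  have i12 : IntegrableOn (fun t => μ * (‖AL N t‖ ^ (2 * q) * gw τ H t) +
      μ * (‖TG N P Q (q - 2) t‖ ^ 2 * gw τ H t)) I :=
    (i1.const_mul μ).integrableOn.add (i2.const_mul μ).integrableOn
  unfold VV GG
  calc ∫ t in I, ‖zl t - TP M c ω t‖ * (‖AL N t‖ ^ (q - 2) * ‖TG N P Q (q - 2) t‖) * gw τ H t ≤
      ∫ t in I, (μ * (‖AL N t‖ ^ (2 * q) * gw τ H t) + μ * (‖TG N P Q (q - 2) t‖ ^ 2 * gw τ H t) +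
        (μ⁻¹) ^ (q - 1) * (‖zl t - TP M c ω t‖ ^ q * gw τ H t)) := by
        refine setIntegral_mono_on hiV (((i1.const_mul μ).integrableOn.add (i2.const_mul μ).integrableOn).add
          (hiG.const_mul _)) measurableSet_Ioc fun t _ => ?_
        have hg := hgw0 t
        have hy := young q hq ‖zl t - TP M c ω t‖ ‖AL N t‖ ‖TG N P Q (q - 2) t‖ μ (norm_nonneg _) (norm_nonneg _)
          (norm_nonneg _) hμ
        calc _ = (‖zl t - TP M c ω t‖ * ‖AL N t‖ ^ (q - 2) * ‖TG N P Q (q - 2) t‖) * gw τ H t := by ring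
          _ ≤ (μ * (‖AL N t‖ ^ (2 * q) + ‖TG N P Q (q - 2) t‖ ^ 2) + (μ⁻¹) ^ (q - 1) * ‖zl t - TP M c ω t‖ ^ q) *
              gw τ H t := by gcongr
          _ = _ := by ring
    _ = μ * (∫ t in I, ‖AL N t‖ ^ (2 * q) * gw τ H t) + μ * (∫ t in I, ‖TG N P Q (q - 2) t‖ ^ 2 * gw τ H t) +
        (μ⁻¹) ^ (q - 1) * ∫ t in I, ‖zl t - TP M c ω t‖ ^ q * gw τ H t := by
        rw [integral_add i12 (hiG.const_mul _),
          integral_add (i1.const_mul μ).integrableOn (i2.const_mul μ).integrableOn,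
          integral_const_mul, integral_const_mul, integral_const_mul]
    _ ≤ _ := by
        have a1 := hsub _ i1 fun t => mul_nonneg (by positivity) (hgw0 t)
        have a2 := hsub _ i2 fun t => mul_nonneg (by positivity) (hgw0 t)
        have a3 := mul_le_mul_of_nonneg_left (a1.trans h1) hμ.le
        have a4 := mul_le_mul_of_nonneg_left (a2.trans h2) hμ.le
        linarith

/-- the direct inequality -/
theorem direct (N X P Q : ℝ) (a : ℕ) (K Z ρ τ H R e₁ L : ℝ) (hN : 1 ≤ N) (hQ : 1 ≤ Q) (hX : 1 ≤ X)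
    (hQX : Q ≤ X) (hρ : 0 ≤ ρ) (hρ1 : ρ ≤ 1) (hZ : N ^ a * Q * Real.exp 1 ≤ Z)
    (hρ2 : ρ ≤ 1 / Z) (hH : 0 < H) (hR : 0 ≤ R) (he₁ : 0 ≤ e₁)
    (hL0 : l1 (Aq N a) (N ^ a) ≤ L)
    (hL1 : l1 (zA N X a) (N ^ a * X) ≤ L) (hL2 : l1 (gA N P Q a) (N ^ a * Q) ≤ L)
    (happ : ∀ t ∈ Set.Ioc (τ - R) (τ + R), ‖zl t - zX X t‖ ≤ e₁)
    (hK : ∑ i ∈ M, ‖c i‖ ≤ K)
    (hnr : ∀ i ∈ M, ∀ n l : ℕ, 1 ≤ n → (n:ℝ) ≤ N ^ a → 1 ≤ l → P ≤ l → (l:ℝ) ≤ N ^ a * Q →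
      1 ≤ |ω i - Real.log n + Real.log l|) :
    SG N X P Q a - (L * L * gq H ρ + L * L * (2 * Real.exp (-(R ^ 2 / (2 * H ^ 2)))) +
      e₁ * (N ^ a * (N ^ a * (2 * Real.sqrt Q)))) -
      K * (L * L * gq H 1 + L * L * (2 * Real.exp (-(R ^ 2 / (2 * H ^ 2))))) ≤ VV M c ω N P Q a τ H R := by
  have h1 := LG N X P Q a Z ρ τ H R e₁ L hN hQ hX hQX hρ hρ1 hZ hρ2 hH hR he₁ hL1 hL2 happ
  have h2 := LB M c ω K hK N P Q a τ H R L hN hH hR hL0 hL2 hnr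
  set I := Set.Ioc (τ - R) (τ + R) with hI
  have c0 := zl_cont
  have c1 := AL_cont N
  have c3 := TP_cont M c ω
  have c5 : Continuous fun t : ℝ => (starRingEnd ℂ) (TG N P Q a t) :=
    Complex.continuous_conj.comp (TG_cont N P Q a)
  have c7 : Continuous fun t : ℝ => (gw τ H t : ℂ) := Complex.continuous_ofReal.comp (gw_continuous τ H)
  have j1 : IntegrableOn (fun t => (zl t * AL N t ^ a * (starRingEnd ℂ) (TG N P Q a t)) * (gw τ H t : ℂ)) I :=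
    contI (by fun_prop) _ _
  have j2 : IntegrableOn (fun t => (TP M c ω t * AL N t ^ a * (starRingEnd ℂ) (TG N P Q a t)) * (gw τ H t : ℂ)) I :=
    contI (by fun_prop) _ _
  have h3 : ‖(∫ t in I, (zl t * AL N t ^ a * (starRingEnd ℂ) (TG N P Q a t)) * (gw τ H t : ℂ)) -
      ∫ t in I, (TP M c ω t * AL N t ^ a * (starRingEnd ℂ) (TG N P Q a t)) * (gw τ H t : ℂ)‖ ≤
      VV M c ω N P Q a τ H R := by
    rw [← integral_sub j1 j2]
    refine (norm_integral_le_integral_norm _).trans (le_of_eq ?_)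
    unfold VV
    refine setIntegral_congr_fun measurableSet_Ioc fun t _ => ?_
    have hg := gw_nonneg τ H t hH
    have e1 : (zl t * AL N t ^ a * (starRingEnd ℂ) (TG N P Q a t)) * (gw τ H t : ℂ) -
        (TP M c ω t * AL N t ^ a * (starRingEnd ℂ) (TG N P Q a t)) * (gw τ H t : ℂ) =
        ((zl t - TP M c ω t) * (AL N t ^ a * (starRingEnd ℂ) (TG N P Q a t))) * (gw τ H t : ℂ) := by ring
    rw [e1, norm_mul, norm_mul, norm_mul, RCLike.norm_conj, norm_pow, Complex.norm_real, Real.norm_of_nonneg hg]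
  set J1 := ∫ t in I, (zl t * AL N t ^ a * (starRingEnd ℂ) (TG N P Q a t)) * (gw τ H t : ℂ) with hJ1
  set J2 := ∫ t in I, (TP M c ω t * AL N t ^ a * (starRingEnd ℂ) (TG N P Q a t)) * (gw τ H t : ℂ) with hJ2
  have h4 : SG N X P Q a ≤ ‖((SG N X P Q a : ℝ) : ℂ)‖ := by
    rw [Complex.norm_real]; exact le_abs_self _
  have h5 : ‖((SG N X P Q a : ℝ) : ℂ)‖ ≤ ‖J1 - J2‖ + ‖J2‖ + ‖J1 - ((SG N X P Q a : ℝ) : ℂ)‖ := by
    have e1 : ((SG N X P Q a : ℝ) : ℂ) = (J1 - J2) + J2 - (J1 - ((SG N X P Q a : ℝ) : ℂ)) := by ring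
    calc ‖((SG N X P Q a : ℝ) : ℂ)‖ = ‖(J1 - J2) + J2 - (J1 - ((SG N X P Q a : ℝ) : ℂ))‖ := by rw [← e1]
      _ ≤ ‖(J1 - J2) + J2‖ + ‖J1 - ((SG N X P Q a : ℝ) : ℂ)‖ := norm_sub_le _ _
      _ ≤ _ := by
        have := norm_add_le (J1 - J2) J2
        linarith
  linarith

/-- the reflected inequality -/
theorem reflect (N X P Q : ℝ) (a : ℕ) (K Z ρ τ H R e₁ e₂ Ω ψ L : ℝ) (hN : 1 ≤ N) (hQ : 1 ≤ Q) (hX : 1 ≤ X)
    (hQX : Q ≤ X) (hρ : 0 ≤ ρ) (hρ1 : ρ ≤ 1) (hZ : N ^ a * Q * Real.exp 1 ≤ Z)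
    (hρ2 : ρ ≤ 1 / Z) (hH : 0 < H) (hR : 0 ≤ R) (he₁ : 0 ≤ e₁) (he₂ : 0 ≤ e₂)
    (hL0 : l1 (Aq N a) (N ^ a) ≤ L)
    (hL1 : l1 (zA N X a) (N ^ a * X) ≤ L) (hL2 : l1 (gA N P Q a) (N ^ a * Q) ≤ L)
    (happ : ∀ t ∈ Set.Ioc (τ - R) (τ + R), ‖zl t - zX X t‖ ≤ e₁)
    (hK : ∑ i ∈ M, ‖c i‖ ≤ K)
    (hph : ∀ t ∈ Set.Ioc (τ - R) (τ + R), ‖Complex.exp ((ψ : ℂ) * Complex.I) * ex Ω t * zl t -
      (starRingEnd ℂ) (zl t)‖ ≤ e₂)
    (hnr : ∀ i ∈ M, ∀ n l : ℕ, 1 ≤ n → (n:ℝ) ≤ N ^ a → 1 ≤ l → P ≤ l → (l:ℝ) ≤ N ^ a * Q →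
      1 ≤ |(-Ω - ω i) - Real.log n + Real.log l|) :
    SG N X P Q a - (L * L * gq H ρ + L * L * (2 * Real.exp (-(R ^ 2 / (2 * H ^ 2)))) +
      e₁ * (N ^ a * (N ^ a * (2 * Real.sqrt Q)))) -
      K * (L * L * gq H 1 + L * L * (2 * Real.exp (-(R ^ 2 / (2 * H ^ 2))))) -
      e₂ * (N ^ a * (N ^ a * (2 * Real.sqrt Q))) ≤ VV M c ω N P Q a τ H R := by
  have h1 := LG N X P Q a Z ρ τ H R e₁ L hN hQ hX hQX hρ hρ1 hZ hρ2 hH hR he₁ hL1 hL2 happ
  have hK' : ∑ i ∈ M, ‖(starRingEnd ℂ) (c i)‖ ≤ K := by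
    simpa only [RCLike.norm_conj] using hK
  have h2 := LB M (fun i => (starRingEnd ℂ) (c i)) (fun i => -Ω - ω i) K hK' N P Q a τ H R L hN hH hR hL0 hL2 hnr
  set I := Set.Ioc (τ - R) (τ + R) with hI
  set E : ℝ → ℂ := fun t => Complex.exp ((ψ : ℂ) * Complex.I) * ex Ω t with hE
  have hEn : ∀ t, ‖E t‖ = 1 := by
    intro t
    rw [hE]; simp only
    rw [norm_mul, Complex.norm_exp_ofReal_mul_I, ex_norm, mul_one]
  have c0 := zl_cont
  have c1 := AL_cont N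
  have c2 := TG_cont N P Q a
  have c3 := TP_cont M c ω
  have cE : Continuous E := continuous_const.mul (ex_cont Ω)
  have c4 : Continuous fun t : ℝ => (starRingEnd ℂ) (zl t) := Complex.continuous_conj.comp c0
  have c5 : Continuous fun t : ℝ => (starRingEnd ℂ) (AL N t) := Complex.continuous_conj.comp c1
  have c7 : Continuous fun t : ℝ => (gw τ H t : ℂ) := Complex.continuous_ofReal.comp (gw_continuous τ H)
  have c8 := gw_continuous τ H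
  -- the integrands
  set F1 : ℝ → ℂ := fun t => (E t * zl t) * ((starRingEnd ℂ) (AL N t) ^ a * TG N P Q a t) * (gw τ H t : ℂ) with hF1
  set F2 : ℝ → ℂ := fun t => (E t * TP M c ω t) * ((starRingEnd ℂ) (AL N t) ^ a * TG N P Q a t) * (gw τ H t : ℂ) with hF2
  set F3 : ℝ → ℂ := fun t => ((starRingEnd ℂ) (zl t)) * ((starRingEnd ℂ) (AL N t) ^ a * TG N P Q a t) *
    (gw τ H t : ℂ) with hF3
  have k1 : Continuous F1 := by rw [hF1]; fun_prop
  have k2 : Continuous F2 := by rw [hF2]; fun_prop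
  have k3 : Continuous F3 := by rw [hF3]; fun_prop
  have j1 := contI k1 (τ - R) (τ + R)
  have j2 := contI k2 (τ - R) (τ + R)
  have j3 := contI k3 (τ - R) (τ + R)
  have h3 : ‖(∫ t in I, F1 t) - ∫ t in I, F2 t‖ ≤ VV M c ω N P Q a τ H R := by
    rw [← integral_sub j1 j2]
    refine (norm_integral_le_integral_norm _).trans (le_of_eq ?_)
    unfold VV
    refine setIntegral_congr_fun measurableSet_Ioc fun t _ => ?_
    have hg := gw_nonneg τ H t hH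
    have e1 : F1 t - F2 t = (E t * (zl t - TP M c ω t)) * ((starRingEnd ℂ) (AL N t) ^ a * TG N P Q a t) *
        (gw τ H t : ℂ) := by rw [hF1, hF2]; simp only; ring
    have e2 : ‖(zl t - TP M c ω t)‖ = ‖E t * (zl t - TP M c ω t)‖ := by rw [norm_mul, hEn t, one_mul]
    have e3 : ‖AL N t‖ ^ a * ‖TG N P Q a t‖ = ‖(starRingEnd ℂ) (AL N t) ^ a * TG N P Q a t‖ := by
      rw [norm_mul, norm_pow, RCLike.norm_conj]
    have e4 : gw τ H t = ‖((gw τ H t : ℝ) : ℂ)‖ := by rw [Complex.norm_real, Real.norm_of_nonneg hg]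
    rw [e1, e2, e3]
    conv_rhs => rw [e4]
    rw [norm_mul, norm_mul]
  have h4 : ‖(∫ t in I, F1 t) - ∫ t in I, F3 t‖ ≤ e₂ * (N ^ a * (N ^ a * (2 * Real.sqrt Q))) := by
    rw [← integral_sub j1 j3]
    have hgwI := gw_integrable τ H hH
    calc ‖∫ t in I, (F1 t - F3 t)‖ ≤ ∫ t in I, ‖F1 t - F3 t‖ := norm_integral_le_integral_norm _
      _ ≤ ∫ t in I, e₂ * (N ^ a * (N ^ a * (2 * Real.sqrt Q))) * gw τ H t := by
          refine setIntegral_mono_on (j1.sub j3).norm (hgwI.const_mul _).integrableOn measurableSet_Ioc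
            fun t ht => ?_
          have hg := gw_nonneg τ H t hH
          have e1 : F1 t - F3 t = (Complex.exp ((ψ : ℂ) * Complex.I) * ex Ω t * zl t - (starRingEnd ℂ) (zl t)) *
            ((starRingEnd ℂ) (AL N t) ^ a * TG N P Q a t) * (gw τ H t : ℂ) := by
            rw [hF1, hF3, hE]; simp only; ring
          rw [e1, norm_mul, norm_mul, norm_mul, norm_pow, RCLike.norm_conj, Complex.norm_real,
            Real.norm_of_nonneg hg]
          have b1 := hph t ht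
          have a3 := AL_norm N hN t
          have a4 := TG_norm (P := P) hN (by linarith : 0 ≤ Q) a t
          gcongr
      _ ≤ ∫ t, e₂ * (N ^ a * (N ^ a * (2 * Real.sqrt Q))) * gw τ H t := by
          refine setIntegral_le_integral (hgwI.const_mul _) (Eventually.of_forall fun t => ?_)
          have := gw_nonneg τ H t hH
          simp only [Pi.zero_apply]
          positivity
      _ = _ := by rw [integral_const_mul, gw_integral τ H hH, mul_one]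
  have h5 : ∫ t in I, F3 t = (starRingEnd ℂ) (∫ t in I, (zl t * AL N t ^ a * (starRingEnd ℂ) (TG N P Q a t)) *
      (gw τ H t : ℂ)) := by
    rw [← integral_conj]
    refine integral_congr_ae (Eventually.of_forall fun t => ?_)
    rw [hF3]
    simp only [map_mul, Complex.conj_conj, Complex.conj_ofReal, map_pow]
    ring
  have h6 : ‖(∫ t in I, F3 t) - ((SG N X P Q a : ℝ) : ℂ)‖ = ‖(∫ t in I, (zl t * AL N t ^ a *
      (starRingEnd ℂ) (TG N P Q a t)) * (gw τ H t : ℂ)) - ((SG N X P Q a : ℝ) : ℂ)‖ := by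
    rw [h5]
    have : ((SG N X P Q a : ℝ) : ℂ) = (starRingEnd ℂ) ((SG N X P Q a : ℝ) : ℂ) := (Complex.conj_ofReal _).symm
    conv_lhs => rw [this]
    rw [← map_sub, RCLike.norm_conj]
  have h7 : ‖∫ t in I, F2 t‖ = ‖∫ t in I, (TP M (fun i => (starRingEnd ℂ) (c i)) (fun i => -Ω - ω i) t * AL N t ^ a *
      (starRingEnd ℂ) (TG N P Q a t)) * (gw τ H t : ℂ)‖ := by
    have e1 : ∀ t, F2 t = Complex.exp ((ψ : ℂ) * Complex.I) * (starRingEnd ℂ) ((TP M (fun i => (starRingEnd ℂ) (c i))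
        (fun i => -Ω - ω i) t * AL N t ^ a * (starRingEnd ℂ) (TG N P Q a t)) * (gw τ H t : ℂ)) := by
      intro t
      have e2 : (starRingEnd ℂ) (TP M (fun i => (starRingEnd ℂ) (c i)) (fun i => -Ω - ω i) t) = ex Ω t * TP M c ω t := by
        unfold TP
        rw [map_sum, mul_sum]
        refine sum_congr rfl fun i _ => ?_
        rw [map_mul, Complex.conj_conj]
        have e3 : (starRingEnd ℂ) (ex (-Ω - ω i) t) = ex Ω t * ex (ω i) t := by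
          rw [← ex_add]
          unfold ex
          rw [← Complex.exp_conj]
          congr 1
          rw [map_mul, Complex.conj_ofReal, Complex.conj_I]
          push_cast
          ring
        rw [e3]; ring
      rw [map_mul, map_mul, map_mul, e2, Complex.conj_conj, Complex.conj_ofReal, map_pow, hF2, hE]
      simp only
      ring
    simp only [e1]
    rw [integral_const_mul, integral_conj, norm_mul, Complex.norm_exp_ofReal_mul_I, one_mul, RCLike.norm_conj]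
  set J1 := ∫ t in I, F1 t with hJ1
  set J2 := ∫ t in I, F2 t with hJ2
  set J3 := ∫ t in I, F3 t with hJ3
  rw [← h7] at h2
  rw [← h6] at h1
  have h8 : SG N X P Q a ≤ ‖((SG N X P Q a : ℝ) : ℂ)‖ := by
    rw [Complex.norm_real]; exact le_abs_self _
  have h9 : ‖((SG N X P Q a : ℝ) : ℂ)‖ ≤ ‖J1 - J2‖ + ‖J2‖ + ‖J1 - J3‖ + ‖J3 - ((SG N X P Q a : ℝ) : ℂ)‖ := by
    have e1 : ((SG N X P Q a : ℝ) : ℂ) = (J1 - J2) + J2 - (J1 - J3) - (J3 - ((SG N X P Q a : ℝ) : ℂ)) := by ring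
    calc ‖((SG N X P Q a : ℝ) : ℂ)‖ = ‖(J1 - J2) + J2 - (J1 - J3) - (J3 - ((SG N X P Q a : ℝ) : ℂ))‖ := by rw [← e1]
      _ ≤ ‖(J1 - J2) + J2 - (J1 - J3)‖ + ‖J3 - ((SG N X P Q a : ℝ) : ℂ)‖ := norm_sub_le _ _
      _ ≤ ‖(J1 - J2) + J2‖ + ‖J1 - J3‖ + ‖J3 - ((SG N X P Q a : ℝ) : ℂ)‖ := by
        have := norm_sub_le ((J1 - J2) + J2) (J1 - J3)
        linarith
      _ ≤ _ := by
        have := norm_add_le (J1 - J2) J2
        linarith
  linarith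

end

end

end Pool.Agent.K7.H52.MD
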