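import Pool.Agent.K7.H52.MD.C
import Pool.Agent.R311.SE.F

set_option autoImplicit false

/-! Choice of the parameters: a gap in the spectrum. -/

namespace Pool.Agent.K7.H52.MD

open Finset MeasureTheory Filter Topology
open Pool.Agent.H306R2
open Pool.Agent.R311.BS (ex gq zX ev_small ev_pow ev_rpow_ge ev_log_rpow_ge U_lower l1 gw_uncurry gw_lint averaging)
open Pool.Agent.R311.SE

noncomputable section

/-- upper bound for the diagonal sums -/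
theorem U_any (κ : ℝ) (hκ : 0 < κ) : ∃ C : ℝ, 0 < C ∧ ∀ᶠ T : ℝ in atTop, ∀ Y : ℝ, Y ≤ T →
    ∑ n ∈ Icc 1 ⌊Y⌋₊, dv κ n * dv κ n / n ≤ C * Real.log T ^ (κ ^ 2) := by
  obtain ⟨C, hC, h⟩ := mixed (κ := κ) (f := κ) hκ hκ.le le_rfl
  refine ⟨C, hC, ?_⟩
  filter_upwards [eventually_ge_atTop (Real.exp 1)] with T hT Y hY
  have h1 := h T hT
  have e : κ * κ = κ ^ 2 := by ring
  rw [e] at h1
  refine le_trans ?_ h1
  refine sum_le_sum_of_subset_of_nonneg (Icc_subset_Icc_right (Nat.floor_le_floor hY)) fun n _ _ => ?_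
  have h3 := dv_nonneg hκ.le n
  positivity

/-- lower bound for the diagonal sum of the test function -/
theorem SG_low (q : ℕ) (hq : 2 ≤ q) (ν η : ℝ) (hν : 0 < ν) (hν1 : ν ≤ 1) (hη : 0 < η) : ∃ c : ℝ, 0 < c ∧
    ∀ᶠ T : ℝ in atTop, ∀ X P Q : ℝ, 1 ≤ P → 1 ≤ Q → (T ^ ν) ^ (q - 2) * Q ≤ X →
      η * Real.log T ≤ Real.log Q - Real.log P - Real.log ((T ^ ν) ^ (q - 2)) - 1 →
      c * Real.log T ^ (((q:ℝ) / 2) ^ 2) ≤ SG (T ^ ν) X P Q (q - 2) := by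
  have hqr : (2:ℝ) ≤ q := by exact_mod_cast hq
  obtain ⟨κ, hκ⟩ : ∃ κ : ℝ, κ = (q:ℝ) / 2 := ⟨_, rfl⟩
  have hκ1 : 1 ≤ κ := by rw [hκ]; linarith
  obtain ⟨cS, hcS, hSev⟩ := U_lower (κ := κ) hκ1
  have ev1 : ∀ᶠ T : ℝ in atTop, cS * (ν * Real.log T) ^ (κ ^ 2) ≤
      ∑ n ∈ Icc 1 ⌊T ^ ν⌋₊, dv κ n ^ 2 / n := by
    have h1 : Tendsto (fun T : ℝ => ν * Real.log T) atTop atTop :=
      Real.tendsto_log_atTop.const_mul_atTop hν
    filter_upwards [h1.eventually hSev, eventually_gt_atTop 0] with T hT hT0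
    rw [Real.rpow_def_of_pos hT0, mul_comm (Real.log T)]
    exact hT
  refine ⟨η / 2 * (cS * ν ^ (κ ^ 2)), by positivity, ?_⟩
  filter_upwards [ev1, eventually_ge_atTop 1, Real.tendsto_log_atTop.eventually_ge_atTop 1] with T h1 hT1 hL X P Q hP hQ hX hη2
  have hT0 : 0 < T := by linarith
  have hL0 : 0 < Real.log T := by linarith
  have hN1 : 1 ≤ T ^ ν := Real.one_le_rpow hT1 hν.le
  have hΛ0 : 0 ≤ Real.log Q - Real.log P - Real.log ((T ^ ν) ^ (q - 2)) - 1 := le_trans (by positivity) hη2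
  have h2 := SG_ge hN1 (q - 2) hP hQ hX hΛ0
  have h3 := WQ_ge hN1 (q - 2)
  have e : (((q - 2 : ℕ) : ℝ)) / 2 + 1 = κ := by
    rw [hκ, Nat.cast_sub hq]; push_cast; ring
  rw [e, Real.log_rpow hT0] at h3
  rw [Real.mul_rpow hν.le hL0.le] at h1
  rw [← hκ]
  obtain ⟨A, hA⟩ : ∃ A : ℝ, A = Real.log T ^ (κ ^ 2) := ⟨_, rfl⟩
  have hA0 : 0 ≤ A := by rw [hA]; positivity
  rw [← hA] at h1 ⊢
  have hW : cS * ν ^ (κ ^ 2) * A ≤ 2 * Real.log T * WQ (T ^ ν) (q - 2) := by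
    have hW0 : 0 ≤ WQ (T ^ ν) (q - 2) := by
      unfold WQ
      refine sum_nonneg fun l _ => sum_nonneg fun m _ => ?_
      have := Aq_nonneg (T ^ ν) (q - 2) l
      have := Aq_nonneg (T ^ ν) (q - 2) m
      positivity
    have h4 : 1 + ν * Real.log T ≤ 2 * Real.log T := by nlinarith
    have h5 := mul_le_mul_of_nonneg_right h4 hW0
    have h6 := h1.trans (h3.trans h5)
    linarith
  have hW0 : 0 ≤ WQ (T ^ ν) (q - 2) := by
    have : 0 ≤ cS * ν ^ (κ ^ 2) * A := by positivity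
    by_contra h
    rw [not_le] at h
    nlinarith
  calc η / 2 * (cS * ν ^ (κ ^ 2)) * A = η / 2 * (cS * ν ^ (κ ^ 2) * A) := by ring
    _ ≤ η / 2 * (2 * Real.log T * WQ (T ^ ν) (q - 2)) := by gcongr
    _ = η * Real.log T * WQ (T ^ ν) (q - 2) := by ring
    _ ≤ (Real.log Q - Real.log P - Real.log ((T ^ ν) ^ (q - 2)) - 1) * WQ (T ^ ν) (q - 2) := by gcongr
    _ ≤ _ := h2

/-- the final arithmetic in one window -/
lemma fin_window {A₀ P S E1 E2 V μ U1 U2 g B G Cu : ℝ} (hμ : μ = A₀ / (8 * Cu)) (hA : 0 < A₀) (hCu : 0 < Cu)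
    (hP : 0 ≤ P) (hS : A₀ * P ≤ S) (h1 : S - E1 - E2 ≤ V) (hV : V ≤ μ * (U1 + U2 + 2 * g) + B * G)
    (hE1 : E1 ≤ 1) (hE2 : E2 ≤ 1) (hU1 : U1 ≤ Cu * P) (hU2 : U2 ≤ Cu * P) (hg : μ * (2 * g) ≤ 1)
    (h12 : 12 ≤ A₀ * P) : A₀ * P / 2 ≤ B * G := by
  have hμ0 : 0 < μ := by rw [hμ]; positivity
  have h2 : μ * (U1 + U2) ≤ A₀ * P / 4 := by
    have h3 : μ * (U1 + U2) ≤ μ * (2 * (Cu * P)) := by
      apply mul_le_mul_of_nonneg_left _ hμ0.le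
      linarith
    have h4 : μ * (2 * (Cu * P)) = A₀ * P / 4 := by rw [hμ]; field_simp; ring
    linarith
  nlinarith

/-- powers -/
lemma rp_mul {x : ℝ} (hx : 0 < x) (a b : ℝ) : x ^ a * x ^ b = x ^ (a + b) := (Real.rpow_add hx a b).symm

lemma rp_sq {x : ℝ} (hx : 0 < x) (a : ℝ) : (x ^ a) ^ 2 = x ^ (2 * a) := by
  rw [← Real.rpow_natCast, ← Real.rpow_mul hx.le]
  congr 1; push_cast; ring

/-- the window inequality for a gap, direct form -/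
theorem win_direct (q : ℕ) (hq : 2 ≤ q) {ε α β : ℝ} (hε : 0 < ε) (hε1 : ε ≤ 1) (hα : 0 ≤ α) (hαβ : α < β) (hβ : β ≤ 1) :
    ∃ c : ℝ, 0 < c ∧ ∀ᶠ T : ℝ in atTop, ∀ h : ℝ, T ^ ε ≤ h → h ≤ T → ∀ τ : ℝ, T ≤ τ → τ ≤ 2 * T →
      ∀ (ι : Type) (M : Finset ι) (b : ι → ℂ) (lam : ι → ℝ),
      ∑ i ∈ M, ‖b i‖ ≤ Real.exp (T ^ (ε * (β - α) / 8)) →
      (∀ i ∈ M, lam i ≤ α * Real.log h ∨ β * Real.log h ≤ lam i) →
      c * Real.log T ^ (((q:ℝ) / 2) ^ 2) ≤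
        GG M b (fun i => -lam i) q τ (h ^ (1 - (β - α) / 4)) (h ^ (1 - (β - α) / 8)) := by
  have hqr : (2:ℝ) ≤ q := by exact_mod_cast hq
  obtain ⟨κ, hκdef⟩ : ∃ κ : ℝ, κ = (q:ℝ) / 2 := ⟨_, rfl⟩
  have hκ1 : 1 ≤ κ := by rw [hκdef]; linarith only [hqr]
  obtain ⟨γ, hγ⟩ : ∃ γ : ℝ, γ = (β - α) / 4 := ⟨_, rfl⟩
  have hγ0 : 0 < γ := by rw [hγ]; linarith only [hαβ]
  have hγ1 : γ ≤ 1 / 4 := by rw [hγ]; linarith only [hα, hβ]
  have hβγ : β = α + 4 * γ := by rw [hγ]; ring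
  obtain ⟨ν, hν⟩ : ∃ ν : ℝ, ν = ε * γ / (8 * q) := ⟨_, rfl⟩
  have hνpos : 0 < ν := by rw [hν]; positivity
  have hνq : ν * q = ε * γ / 8 := by rw [hν]; field_simp
  have hν1 : ν ≤ 1 := by
    have h1 : ν * 1 ≤ ν * q := mul_le_mul_of_nonneg_left (by linarith only [hqr]) hνpos.le
    rw [hνq] at h1
    nlinarith only [h1, hε1, hγ1, hε, hγ0]
  have hη : 0 < ε * γ / 2 := by positivity
  obtain ⟨A₀, hA₀, hSGev⟩ := SG_low q hq ν (ε * γ / 2) hνpos hν1 hη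
  obtain ⟨Cu, hCu, hUev⟩ := U_any κ (by linarith only [hκ1])
  obtain ⟨μ, hμdef⟩ : ∃ μ : ℝ, μ = A₀ / (8 * Cu) := ⟨_, rfl⟩
  have hμpos : 0 < μ := by rw [hμdef]; positivity
  obtain ⟨B, hBd⟩ : ∃ B : ℝ, B = ((10:ℝ) ^ (q + 2)) ^ 2 := ⟨_, rfl⟩
  have hBpos : 0 < B := by rw [hBd]; positivity
  refine ⟨A₀ / (2 * (μ⁻¹) ^ (q - 1)), by positivity, ?_⟩
  rw [← hκdef] at hSGev ⊢
  rw [show ε * (β - α) / 8 = ε * γ / 2 by rw [hγ]; ring, show (β - α) / 8 = γ / 2 by rw [hγ]; ring, ← hγ]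
  have ev1 := ev_small (4 * (q + 2)) (1 / 36) (7 * ε * γ / 4) (3 * B) (by norm_num) (by positivity)
  have ev2 := ev_small (4 * (q + 2)) (1 / 2) (ε * γ) (6 * B) (by norm_num) (by positivity)
  have ev3 := ev_small (4 * (q + 2)) (1 / 36) (7 * ε * γ / 4) (μ * 2 * B) (by norm_num) (by positivity)
  have ev4 := ev_small (4 * (q + 2)) (1 / 8) (ε * γ) (6 * B) (by norm_num) (by positivity)
  have ev5 := ev_pow (3 * (1575 * Real.sqrt 2 * 2)) (γ / 2) (by positivity)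
  have ev6 := ev_log_rpow_ge 12 A₀ (κ ^ 2) hA₀ (by positivity)
  have ev7 := ev_rpow_ge 8 (ε * γ / 2) (by positivity)
  have ev8 := ev_rpow_ge 4 (ε * γ / 2) (by positivity)
  have ev9 : ∀ᶠ T : ℝ in atTop, 4 / (ε * γ) ≤ Real.log T :=
    Real.tendsto_log_atTop.eventually (eventually_ge_atTop _)
  have ev10 : ∀ᶠ T : ℝ in atTop, 10 ≤ Real.log T :=
    Real.tendsto_log_atTop.eventually (eventually_ge_atTop 10)
  have ev11 := ev_pow 4 (ε * γ / 2) (by positivity)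
  filter_upwards [hSGev, hUev, ev1, ev2, ev3, ev4, ev5, ev6, ev7, ev8, ev9, ev10, ev11, eventually_ge_atTop 1000]
    with T g1 g2 g3 g4 g5 g6 g7 g8 g9 g10 g11 g12 g13 hT h hh1 hh2 τ hτ1 hτ2 ι M b lam hb hlam
  clear hSGev hUev ev1 ev2 ev3 ev4 ev5 ev6 ev7 ev8 ev9 ev10 ev11
  have hT0 : 0 < T := by linarith only [hT]
  have hT1 : 1 ≤ T := by linarith only [hT]
  have hL0 : 0 < Real.log T := by linarith only [g12]
  have hh0 : 0 < h := (Real.rpow_pos_of_pos hT0 _).trans_le hh1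
  have hh1' : 1 ≤ h := (Real.one_le_rpow hT1 hε.le).trans hh1
  -- powers of `h` and powers of `T`
  have hpow : ∀ a : ℝ, 0 ≤ a → T ^ (ε * a) ≤ h ^ a := by
    intro a ha
    rw [Real.rpow_mul hT0.le]
    exact Real.rpow_le_rpow (Real.rpow_nonneg hT0.le _) hh1 ha
  have hpow' : ∀ a : ℝ, 0 ≤ a → h ^ a ≤ T ^ a := fun a ha => Real.rpow_le_rpow hh0.le hh2 ha
  have hlogh : ε * Real.log T ≤ Real.log h := by
    rw [← Real.log_rpow hT0]
    exact Real.log_le_log (Real.rpow_pos_of_pos hT0 _) hh1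
  have hlogh' : Real.log h ≤ Real.log T := Real.log_le_log hh0 hh2
  have hlogh0 : 0 ≤ Real.log h := Real.log_nonneg hh1'
  obtain ⟨N, hNdef⟩ : ∃ N : ℝ, N = T ^ ν := ⟨_, rfl⟩
  rw [← hNdef] at g1
  have hN1 : 1 ≤ N := by rw [hNdef]; exact Real.one_le_rpow hT1 hνpos.le
  have hN0 : 0 < N := by linarith only [hN1]
  have hNq : N ^ q = T ^ (ε * (γ / 8)) := by
    rw [hNdef, ← Real.rpow_natCast, ← Real.rpow_mul hT0.le, hνq]
    congr 1; ring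
  obtain ⟨a, ha⟩ : ∃ a : ℕ, a = q - 2 := ⟨_, rfl⟩
  have haq : a ≤ q := by omega
  have hNa1 : 1 ≤ N ^ a := one_le_pow₀ hN1
  have hNaq : N ^ a ≤ N ^ q := pow_le_pow_right₀ hN1 haq
  have hNqh : N ^ q ≤ h ^ (γ / 8) := by rw [hNq]; exact hpow _ (by positivity)
  obtain ⟨P, hP⟩ : ∃ P : ℝ, P = h ^ (α + γ) := ⟨_, rfl⟩
  obtain ⟨Q, hQ⟩ : ∃ Q : ℝ, Q = h ^ (α + 2 * γ) := ⟨_, rfl⟩
  have hP1 : 1 ≤ P := by rw [hP]; exact Real.one_le_rpow hh1' (by linarith only [hα, hγ0])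
  have hQ1 : 1 ≤ Q := by rw [hQ]; exact Real.one_le_rpow hh1' (by linarith only [hα, hγ0])
  have hNQ : N ^ a * Q ≤ h ^ (1 - 15 * γ / 8) := by
    calc N ^ a * Q ≤ h ^ (γ / 8) * h ^ (α + 2 * γ) := by rw [hQ]; gcongr; exact hNaq.trans hNqh
      _ = h ^ (γ / 8 + (α + 2 * γ)) := rp_mul hh0 _ _
      _ ≤ _ := Real.rpow_le_rpow_of_exponent_le hh1' (by linarith only [hβγ, hβ])
  have hNQh : h ^ (1 - 15 * γ / 8) ≤ h := by
    calc h ^ (1 - 15 * γ / 8) ≤ h ^ (1:ℝ) := Real.rpow_le_rpow_of_exponent_le hh1' (by linarith only [hγ0])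
      _ = h := Real.rpow_one h
  have hNqZ : N ^ q ≤ h ^ (1 - 15 * γ / 8) :=
    hNqh.trans (Real.rpow_le_rpow_of_exponent_le hh1' (by linarith only [hγ1, hγ0]))
  obtain ⟨Z, hZdef⟩ : ∃ Z : ℝ, Z = 3 * h ^ (1 - 15 * γ / 8) := ⟨_, rfl⟩
  have hhz1 : 1 ≤ h ^ (1 - 15 * γ / 8) := Real.one_le_rpow hh1' (by linarith only [hγ1])
  have hexp := Real.exp_one_lt_d9
  have hZ1 : N ^ a * Q * Real.exp 1 ≤ Z := by
    rw [hZdef]
    have hQ0 : 0 ≤ N ^ a * Q := by positivity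
    nlinarith only [hNQ, hexp, hhz1, hQ0]
  have hZ2 : N ^ q * Real.exp 1 ≤ Z := by
    rw [hZdef]
    have hQ0 : 0 ≤ N ^ q := by positivity
    nlinarith only [hNqZ, hexp, hhz1, hQ0]
  have hZ3 : 3 ≤ Z := by rw [hZdef]; linarith only [hhz1]
  obtain ⟨ρ, hρdef⟩ : ∃ ρ : ℝ, ρ = 1 / Z := ⟨_, rfl⟩
  have hZ0 : 0 < Z := by linarith only [hZ3]
  have hρ0 : 0 < ρ := by rw [hρdef]; exact one_div_pos.mpr hZ0
  have hρ1 : ρ ≤ 1 := by rw [hρdef, div_le_one hZ0]; linarith only [hZ3]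
  obtain ⟨H, hH⟩ : ∃ H : ℝ, H = h ^ (1 - γ) := ⟨_, rfl⟩
  obtain ⟨R, hR⟩ : ∃ R : ℝ, R = h ^ (1 - γ / 2) := ⟨_, rfl⟩
  have hH0 : 0 < H := by rw [hH]; exact Real.rpow_pos_of_pos hh0 _
  have hR0 : 0 < R := by rw [hR]; exact Real.rpow_pos_of_pos hh0 _
  -- exponential factors
  have hgρ : gq H ρ ≤ Real.exp (-(1 / 36 * T ^ (7 * ε * γ / 4))) := by
    unfold gq
    apply Real.exp_le_exp.mpr
    have e1 : H ^ 2 * ρ ^ 2 / 4 = 1 / 36 * h ^ (7 * γ / 4) := by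
      rw [hρdef, hZdef, hH, one_div, inv_pow, mul_pow, rp_sq hh0, rp_sq hh0]
      have e2 : h ^ (2 * (1 - γ)) = h ^ (2 * (1 - 15 * γ / 8)) * h ^ (7 * γ / 4) := by
        rw [rp_mul hh0]; congr 1; ring
      rw [e2]
      have h3 : 0 < h ^ (2 * (1 - 15 * γ / 8)) := Real.rpow_pos_of_pos hh0 _
      field_simp
      norm_num
    rw [e1]
    have := hpow (7 * γ / 4) (by positivity)
    rw [show ε * (7 * γ / 4) = 7 * ε * γ / 4 by ring] at this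
    linarith only [this]
  have hgR : Real.exp (-(R ^ 2 / (2 * H ^ 2))) ≤ Real.exp (-(1 / 2 * T ^ (ε * γ))) := by
    apply Real.exp_le_exp.mpr
    have e1 : R ^ 2 / (2 * H ^ 2) = 1 / 2 * h ^ γ := by
      rw [hR, hH, rp_sq hh0, rp_sq hh0]
      have e2 : h ^ (2 * (1 - γ / 2)) = h ^ (2 * (1 - γ)) * h ^ γ := by
        rw [rp_mul hh0]; congr 1; ring
      rw [e2]
      have h3 : 0 < h ^ (2 * (1 - γ)) := Real.rpow_pos_of_pos hh0 _
      field_simp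
    rw [e1]
    have := hpow γ hγ0.le
    linarith only [this]
  have hg1 : gq H 1 ≤ Real.exp (-(1 / 4 * T ^ (ε * γ))) := by
    unfold gq
    apply Real.exp_le_exp.mpr
    have e1 : H ^ 2 = h ^ (2 * (1 - γ)) := by rw [hH, rp_sq hh0]
    have h1 : h ^ γ ≤ h ^ (2 * (1 - γ)) := Real.rpow_le_rpow_of_exponent_le hh1' (by linarith only [hγ1])
    have h2 := hpow γ hγ0.le
    rw [e1, one_pow, mul_one]
    linarith only [h1, h2]
  -- the zeta sum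
  obtain ⟨X₀, hX₀⟩ : ∃ X₀ : ℕ, X₀ = ⌈3 * τ⌉₊ := ⟨_, rfl⟩
  have hτ0 : 0 < τ := by linarith only [hτ1, hT0]
  have hX3 : 3 * τ ≤ X₀ := by rw [hX₀]; exact Nat.le_ceil _
  have hX4 : (X₀:ℝ) ≤ 3 * τ + 1 := by
    rw [hX₀]
    exact (Nat.ceil_lt_add_one (by linarith only [hτ0])).le
  have hXT : (X₀:ℝ) ≤ 10 * T := by linarith only [hX4, hτ2, hT]
  have hXTl : T ≤ (X₀:ℝ) := by linarith only [hX3, hτ1, hT0]
  have hX1 : (1:ℝ) ≤ X₀ := by linarith only [hXTl, hT1]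
  have hNQX : N ^ a * Q ≤ (X₀:ℝ) := by linarith only [hNQ, hNQh, hh2, hXTl]
  have hQX : Q ≤ (X₀:ℝ) := by
    have : Q ≤ N ^ a * Q := by nlinarith only [hNa1, hQ1]
    linarith only [this, hNQX]
  obtain ⟨L, hLdef⟩ : ∃ L : ℝ, L = 10 ^ (q + 2) * T ^ (2 * (q + 2)) := ⟨_, rfl⟩
  have hNqT : N ^ q ≤ T := by linarith only [hNqZ, hNQh, hh2]
  have hL : (N ^ q * (X₀:ℝ)) ^ (q + 2) ≤ L := by
    have h1 : N ^ q * (X₀:ℝ) ≤ 10 * T ^ 2 := by
      calc N ^ q * (X₀:ℝ) ≤ T * (10 * T) :=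
            mul_le_mul hNqT hXT (by linarith only [hX1]) hT0.le
        _ = 10 * T ^ 2 := by ring
    calc (N ^ q * (X₀:ℝ)) ^ (q + 2) ≤ (10 * T ^ 2) ^ (q + 2) := pow_le_pow_left₀ (by positivity) h1 _
      _ = L := by rw [hLdef, mul_pow, ← pow_mul]
  have hLL : L * L = B * T ^ (4 * (q + 2)) := by
    rw [hLdef, hBd]
    have : T ^ (4 * (q + 2)) = T ^ (2 * (q + 2)) * T ^ (2 * (q + 2)) := by
      rw [← pow_add]; congr 1; omega
    rw [this]; ring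
  have hLL0 : 0 ≤ L * L := by rw [hLL]; positivity
  have hl0 : l1 (Aq N a) (N ^ a) ≤ L := (l1_Aq N X₀ hN1 hX1 a q haq).trans hL
  have hl0' : l1 (Aq N q) (N ^ q) ≤ L := (l1_Aq N X₀ hN1 hX1 q q le_rfl).trans hL
  have hl1 : l1 (zA N X₀ a) (N ^ a * X₀) ≤ L := (l1_zA N X₀ hN1 hX1 a q haq).trans hL
  have hl2 : l1 (gA N P Q a) (N ^ a * Q) ≤ L := (gA_l1 hN1 hQ1 hQX a q haq).trans hL
  obtain ⟨e₁, he₁def⟩ : ∃ e₁ : ℝ, e₁ = 1575 * (Real.sqrt 2 * T ^ (-(1 / 2) : ℝ)) := ⟨_, rfl⟩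
  have he₁0 : 0 ≤ e₁ := by rw [he₁def]; positivity
  have h4R : 4 * R ≤ h := by
    have e1 : h = h ^ (γ / 2) * R := by
      rw [hR, rp_mul hh0]
      conv_lhs => rw [← Real.rpow_one h]
      congr 1; ring
    have h2 : 4 ≤ h ^ (γ / 2) := by
      refine g10.trans ?_
      have := hpow (γ / 2) (by positivity)
      rwa [show ε * (γ / 2) = ε * γ / 2 by ring] at this
    conv_rhs => rw [e1]
    gcongr
  have happ := app_val hT hτ1 (h4R.trans hh2) hX3 hX4 he₁def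
  -- resonances
  have hlogN : Real.log (N ^ q) ≤ γ / 8 * Real.log h := by
    rw [← Real.log_rpow hh0]
    exact Real.log_le_log (by positivity) hNqh
  have hloga : Real.log (N ^ a) ≤ γ / 8 * Real.log h :=
    (Real.log_le_log (by positivity) hNaq).trans hlogN
  have hlogP : Real.log P = (α + γ) * Real.log h := by rw [hP, Real.log_rpow hh0]
  have hlogQ : Real.log Q = (α + 2 * γ) * Real.log h := by rw [hQ, Real.log_rpow hh0]
  have hγh : 4 ≤ γ * Real.log h := by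
    have h1 : 4 ≤ ε * γ * Real.log T := by
      rw [div_le_iff₀ (by positivity)] at g11
      linarith only [g11]
    have h2 := mul_le_mul_of_nonneg_left hlogh hγ0.le
    linarith only [h1, h2]
  have hnr : ∀ i ∈ M, ∀ n l : ℕ, 1 ≤ n → (n:ℝ) ≤ N ^ a → 1 ≤ l → P ≤ l → (l:ℝ) ≤ N ^ a * Q →
      1 ≤ |-lam i - Real.log n + Real.log l| := by
    intro i hi n l hn hna hl hPl hlQ
    have hn0 : (0:ℝ) < n := by exact_mod_cast hn
    have hn1 : (1:ℝ) ≤ n := by exact_mod_cast hn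
    have hl0 : (0:ℝ) < l := by exact_mod_cast hl
    have k1 := Real.log_nonneg hn1
    have k2 := Real.log_le_log hn0 hna
    have k3 := Real.log_le_log (by linarith only [hP1]) hPl
    have k4 := Real.log_le_log hl0 hlQ
    rw [Real.log_mul (by positivity) (by linarith only [hQ1])] at k4
    rcases hlam i hi with h5 | h5
    · refine le_trans ?_ (le_abs_self _)
      rw [hlogP] at k3
      nlinarith only [k1, k2, k3, h5, hloga, hγh]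
    · refine le_trans ?_ (neg_le_abs _)
      rw [hlogQ] at k4
      rw [hβγ] at h5
      nlinarith only [k1, k4, h5, hloga, hγh]
  -- the inequality
  have hdir := direct M b (fun i => -lam i) N X₀ P Q a (Real.exp (T ^ (ε * γ / 2))) Z ρ τ H R e₁ L hN1 hQ1 hX1
    hQX hρ0.le hρ1 hZ1 (le_of_eq hρdef) hH0 hR0.le he₁0 hl0 hl1 hl2 happ hb hnr
  rw [ha] at hdir hZ1 hl2 hNQX
  have hyo := VV_le M b (fun i => -lam i) q hq N P Q X₀ hN1 hQ1 hNQX Z ρ τ H R L μ hH0 hρ0.le hρ1 hZ1 hZ2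
    (le_of_eq hρdef) hμpos hl2 hl0'
  have hSG := g1 X₀ P Q hP1 hQ1 hNQX (by
    rw [← ha, hlogP, hlogQ]
    have h1 := mul_le_mul_of_nonneg_left hlogh hγ0.le
    nlinarith only [hloga, hγh, h1])
  have hU1 := g2 (N ^ q) hNqT
  have hU2 := g2 (N ^ (q - 2) * Q) (by rw [← ha]; linarith only [hNQ, hNQh, hh2])
  rw [← hκdef] at hyo
  obtain ⟨Pw, hPw⟩ : ∃ Pw : ℝ, Pw = Real.log T ^ (κ ^ 2) := ⟨_, rfl⟩
  have hPw0 : 0 ≤ Pw := by rw [hPw]; positivity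
  rw [← hPw] at hSG hU1 hU2 g8 ⊢
  rw [← hH, ← hR]
  -- errors
  have hE1 : L * L * gq H ρ + L * L * (2 * Real.exp (-(R ^ 2 / (2 * H ^ 2)))) +
      e₁ * (N ^ (q - 2) * (N ^ (q - 2) * (2 * Real.sqrt Q))) ≤ 1 := by
    have k1 : L * L * gq H ρ ≤ 1 / 3 := by
      calc L * L * gq H ρ ≤ L * L * Real.exp (-(1 / 36 * T ^ (7 * ε * γ / 4))) := by gcongr
        _ = (3 * B * (T ^ (4 * (q + 2)) * Real.exp (-(1 / 36 * T ^ (7 * ε * γ / 4))))) / 3 := by rw [hLL]; ring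
        _ ≤ 1 / 3 := by linarith only [g3]
    have k2 : L * L * (2 * Real.exp (-(R ^ 2 / (2 * H ^ 2)))) ≤ 1 / 3 := by
      calc L * L * (2 * Real.exp (-(R ^ 2 / (2 * H ^ 2)))) ≤ L * L * (2 * Real.exp (-(1 / 2 * T ^ (ε * γ)))) := by gcongr
        _ = (6 * B * (T ^ (4 * (q + 2)) * Real.exp (-(1 / 2 * T ^ (ε * γ))))) / 3 := by rw [hLL]; ring
        _ ≤ 1 / 3 := by linarith only [g4]
    have k3 : e₁ * (N ^ (q - 2) * (N ^ (q - 2) * (2 * Real.sqrt Q))) ≤ 1 / 3 := by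
      rw [← ha]
      have k4 : N ^ a ≤ T ^ (γ / 8) := (hNaq.trans hNqh).trans (hpow' _ (by positivity))
      have k5 : Real.sqrt Q ≤ T ^ (1 / 2 - γ) := by
        rw [hQ, Real.sqrt_eq_rpow, ← Real.rpow_mul hh0.le]
        refine (hpow' _ (by nlinarith only [hα, hγ0])).trans ?_
        exact Real.rpow_le_rpow_of_exponent_le hT1 (by linarith only [hβγ, hβ])
      have k6 : T ^ (-(1 / 2) : ℝ) * (T ^ (γ / 8) * (T ^ (γ / 8) * T ^ (1 / 2 - γ))) ≤ T ^ (-(γ / 2)) := by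
        rw [rp_mul hT0, rp_mul hT0, rp_mul hT0]
        exact Real.rpow_le_rpow_of_exponent_le hT1 (by linarith only [hγ0])
      calc e₁ * (N ^ a * (N ^ a * (2 * Real.sqrt Q))) ≤
          e₁ * (T ^ (γ / 8) * (T ^ (γ / 8) * (2 * T ^ (1 / 2 - γ)))) := by gcongr
        _ = (1575 * Real.sqrt 2 * 2) * (T ^ (-(1 / 2) : ℝ) * (T ^ (γ / 8) * (T ^ (γ / 8) * T ^ (1 / 2 - γ)))) := by
            rw [he₁def]; ring
        _ ≤ (1575 * Real.sqrt 2 * 2) * T ^ (-(γ / 2)) := by gcongr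
        _ ≤ 1 / 3 := by linarith only [g7]
    linarith only [k1, k2, k3]
  have hE2 : Real.exp (T ^ (ε * γ / 2)) * (L * L * gq H 1 + L * L * (2 * Real.exp (-(R ^ 2 / (2 * H ^ 2))))) ≤ 1 := by
    have k0 : T ^ (ε * γ / 2) ≤ 1 / 8 * T ^ (ε * γ) := by
      have e1 : T ^ (ε * γ) = T ^ (ε * γ / 2) * T ^ (ε * γ / 2) := by rw [rp_mul hT0]; congr 1; ring
      rw [e1]
      have : 0 < T ^ (ε * γ / 2) := Real.rpow_pos_of_pos hT0 _
      nlinarith only [this, g9]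
    have hq1 : 0 ≤ L * L * gq H 1 := mul_nonneg hLL0 (Pool.Agent.R311.BS.gq_nonneg H 1)
    have k1 : Real.exp (T ^ (ε * γ / 2)) * (L * L * gq H 1) ≤ 1 / 3 := by
      calc Real.exp (T ^ (ε * γ / 2)) * (L * L * gq H 1) ≤
          Real.exp (1 / 8 * T ^ (ε * γ)) * (L * L * Real.exp (-(1 / 4 * T ^ (ε * γ)))) := by gcongr
        _ = (L * L) * (Real.exp (1 / 8 * T ^ (ε * γ)) * Real.exp (-(1 / 4 * T ^ (ε * γ)))) := by ring
        _ = (L * L) * Real.exp (-(1 / 8 * T ^ (ε * γ))) := by rw [← Real.exp_add]; congr 2; ring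
        _ = (6 * B * (T ^ (4 * (q + 2)) * Real.exp (-(1 / 8 * T ^ (ε * γ))))) / 6 := by rw [hLL]; ring
        _ ≤ 1 / 3 := by linarith only [g6]
    have k2 : Real.exp (T ^ (ε * γ / 2)) * (L * L * (2 * Real.exp (-(R ^ 2 / (2 * H ^ 2))))) ≤ 1 / 3 := by
      calc Real.exp (T ^ (ε * γ / 2)) * (L * L * (2 * Real.exp (-(R ^ 2 / (2 * H ^ 2))))) ≤
          Real.exp (1 / 8 * T ^ (ε * γ)) * (L * L * (2 * Real.exp (-(1 / 4 * T ^ (ε * γ))))) := by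
            have : Real.exp (-(1 / 2 * T ^ (ε * γ))) ≤ Real.exp (-(1 / 4 * T ^ (ε * γ))) := by
              apply Real.exp_le_exp.mpr
              have : 0 < T ^ (ε * γ) := Real.rpow_pos_of_pos hT0 _
              linarith only [this]
            have h9 := hgR.trans this
            gcongr
        _ = (L * L) * 2 * (Real.exp (1 / 8 * T ^ (ε * γ)) * Real.exp (-(1 / 4 * T ^ (ε * γ)))) := by ring
        _ = (L * L) * 2 * Real.exp (-(1 / 8 * T ^ (ε * γ))) := by rw [← Real.exp_add]; congr 2; ring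
        _ = (6 * B * (T ^ (4 * (q + 2)) * Real.exp (-(1 / 8 * T ^ (ε * γ))))) / 3 := by rw [hLL]; ring
        _ ≤ 1 / 3 := by linarith only [g6]
    rw [mul_add]
    linarith only [k1, k2]
  have hg : μ * (2 * (L * L * gq H ρ)) ≤ 1 := by
    calc μ * (2 * (L * L * gq H ρ)) ≤ μ * (2 * (L * L * Real.exp (-(1 / 36 * T ^ (7 * ε * γ / 4))))) := by gcongr
      _ = μ * 2 * B * (T ^ (4 * (q + 2)) * Real.exp (-(1 / 36 * T ^ (7 * ε * γ / 4)))) := by rw [hLL]; ring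
      _ ≤ 1 := g5
  have hfin := fin_window hμdef hA₀ hCu hPw0 hSG hdir hyo hE1 hE2 hU1 hU2 hg g8
  have hden : 0 < 2 * (μ⁻¹) ^ (q - 1) := by positivity
  rw [div_mul_eq_mul_div, div_le_iff₀ hden]
  linarith only [hfin]

end

end Pool.Agent.K7.H52.MD
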