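import Pool.Agent.K7.H52.MD.D

set_option autoImplicit false

/-! Choice of the parameters: a gap below the top of the spectrum, by the functional equation. -/

namespace Pool.Agent.K7.H52.MD

open Finset MeasureTheory Filter Topology
open Pool.Agent.H306R2
open Pool.Agent.R311.BS (ex gq zX ev_small ev_pow ev_rpow_ge ev_log_rpow_ge U_lower l1 gw_uncurry gw_lint averaging)
open Pool.Agent.R311.SE

noncomputable section

/-- the final arithmetic in one window, three errors -/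
lemma fin_window3 {A₀ P S E1 E2 E3 V μ U1 U2 g B G Cu : ℝ} (hμ : μ = A₀ / (8 * Cu)) (hA : 0 < A₀) (hCu : 0 < Cu)
    (hP : 0 ≤ P) (hS : A₀ * P ≤ S) (h1 : S - E1 - E2 - E3 ≤ V) (hV : V ≤ μ * (U1 + U2 + 2 * g) + B * G)
    (hE1 : E1 ≤ 1) (hE2 : E2 ≤ 1) (hE3 : E3 ≤ 1) (hU1 : U1 ≤ Cu * P) (hU2 : U2 ≤ Cu * P) (hg : μ * (2 * g) ≤ 1)
    (h12 : 16 ≤ A₀ * P) : A₀ * P / 2 ≤ B * G := by
  have hμ0 : 0 < μ := by rw [hμ]; positivity
  have h2 : μ * (U1 + U2) ≤ A₀ * P / 4 := by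
    have h3 : μ * (U1 + U2) ≤ μ * (2 * (Cu * P)) := by
      apply mul_le_mul_of_nonneg_left _ hμ0.le
      linarith
    have h4 : μ * (2 * (Cu * P)) = A₀ * P / 4 := by rw [hμ]; field_simp; ring
    linarith
  nlinarith

/-- the window inequality for a gap, reflected form -/
theorem win_reflect (q : ℕ) (hq : 2 ≤ q) {e θ : ℝ} (he : 0 < e) (he1 : e ≤ 1 / 16) (heθ : 16 * e ≤ 1 - θ) :
    ∃ c : ℝ, 0 < c ∧ ∀ᶠ T : ℝ in atTop, ∀ τ : ℝ, T ≤ τ → τ ≤ 2 * T →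
      ∀ (ι : Type) (M : Finset ι) (b : ι → ℂ) (lam : ι → ℝ),
      ∑ i ∈ M, ‖b i‖ ≤ Real.exp (T ^ e) →
      (∀ i ∈ M, lam i ≤ θ * Real.log T ∨ Real.log T ≤ lam i) →
      c * Real.log T ^ (((q:ℝ) / 2) ^ 2) ≤
        GG M b (fun i => -lam i) q τ (T ^ e) (T ^ (2 * e)) := by
  have hqr : (2:ℝ) ≤ q := by exact_mod_cast hq
  obtain ⟨κ, hκdef⟩ : ∃ κ : ℝ, κ = (q:ℝ) / 2 := ⟨_, rfl⟩
  have hκ1 : 1 ≤ κ := by rw [hκdef]; linarith only [hqr]
  obtain ⟨ν, hν⟩ : ∃ ν : ℝ, ν = e / (16 * q) := ⟨_, rfl⟩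
  have hνpos : 0 < ν := by rw [hν]; positivity
  have hνq : ν * q = e / 16 := by rw [hν]; field_simp
  have hν1 : ν ≤ 1 := by
    have h1 : ν * 1 ≤ ν * q := mul_le_mul_of_nonneg_left (by linarith only [hqr]) hνpos.le
    rw [hνq] at h1
    linarith only [h1, he1]
  have hη : 0 < e / 8 := by positivity
  obtain ⟨A₀, hA₀, hSGev⟩ := SG_low q hq ν (e / 8) hνpos hν1 hη
  obtain ⟨Cu, hCu, hUev⟩ := U_any κ (by linarith only [hκ1])
  obtain ⟨μ, hμdef⟩ : ∃ μ : ℝ, μ = A₀ / (8 * Cu) := ⟨_, rfl⟩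
  have hμpos : 0 < μ := by rw [hμdef]; positivity
  obtain ⟨B, hBd⟩ : ∃ B : ℝ, B = ((10:ℝ) ^ (q + 2)) ^ 2 := ⟨_, rfl⟩
  have hBpos : 0 < B := by rw [hBd]; positivity
  refine ⟨A₀ / (2 * (μ⁻¹) ^ (q - 1)), by positivity, ?_⟩
  rw [← hκdef] at hSGev ⊢
  have ev1 := ev_small (4 * (q + 2)) (1 / 36) (7 * e / 8) (3 * B) (by norm_num) (by positivity)
  have ev2 := ev_small (4 * (q + 2)) (1 / 2) (2 * e) (6 * B) (by norm_num) (by positivity)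
  have ev3 := ev_small (4 * (q + 2)) (1 / 36) (7 * e / 8) (μ * 2 * B) (by norm_num) (by positivity)
  have ev4 := ev_small (4 * (q + 2)) (1 / 8) (2 * e) (6 * B) (by norm_num) (by positivity)
  have ev5 := ev_pow (3 * (1575 * Real.sqrt 2 * 2)) (1 / 4) (by norm_num)
  have ev6 := ev_log_rpow_ge 16 A₀ (κ ^ 2) hA₀ (by positivity)
  have ev7 := ev_rpow_ge 28 e he
  have ev8 := ev_pow 4 (1 - 2 * e) (by linarith only [he1])
  have ev9 : ∀ᶠ T : ℝ in atTop, 32 / e ≤ Real.log T :=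
    Real.tendsto_log_atTop.eventually (eventually_ge_atTop _)
  have ev10 : ∀ᶠ T : ℝ in atTop, 10 ≤ Real.log T :=
    Real.tendsto_log_atTop.eventually (eventually_ge_atTop 10)
  have ev11 := ev_pow 48 (1 / 5) (by norm_num)
  have ev12 := ev_pow (1575 * Real.sqrt 2) (1 / 2) (by norm_num)
  filter_upwards [hSGev, hUev, ev1, ev2, ev3, ev4, ev5, ev6, ev7, ev8, ev9, ev10, ev11, ev12, eventually_ge_atTop 1000]
    with T g1 g2 g3 g4 g5 g6 g7 g8 g9 g10 g11 g12 g13 g14 hT τ hτ1 hτ2 ι M b lam hb hlam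
  clear hSGev hUev ev1 ev2 ev3 ev4 ev5 ev6 ev7 ev8 ev9 ev10 ev11 ev12
  have hT0 : 0 < T := by linarith only [hT]
  have hT1 : 1 ≤ T := by linarith only [hT]
  have hL0 : 0 < Real.log T := by linarith only [g12]
  obtain ⟨N, hNdef⟩ : ∃ N : ℝ, N = T ^ ν := ⟨_, rfl⟩
  rw [← hNdef] at g1
  have hN1 : 1 ≤ N := by rw [hNdef]; exact Real.one_le_rpow hT1 hνpos.le
  have hN0 : 0 < N := by linarith only [hN1]
  have hNq : N ^ q = T ^ (e / 16) := by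
    rw [hNdef, ← Real.rpow_natCast, ← Real.rpow_mul hT0.le, hνq]
  obtain ⟨a, ha⟩ : ∃ a : ℕ, a = q - 2 := ⟨_, rfl⟩
  have haq : a ≤ q := by omega
  have hNa1 : 1 ≤ N ^ a := one_le_pow₀ hN1
  have hNaq : N ^ a ≤ N ^ q := pow_le_pow_right₀ hN1 haq
  obtain ⟨P, hP⟩ : ∃ P : ℝ, P = T ^ (e / 4) := ⟨_, rfl⟩
  obtain ⟨Q, hQ⟩ : ∃ Q : ℝ, Q = T ^ (e / 2) := ⟨_, rfl⟩
  have hP1 : 1 ≤ P := by rw [hP]; exact Real.one_le_rpow hT1 (by positivity)
  have hQ1 : 1 ≤ Q := by rw [hQ]; exact Real.one_le_rpow hT1 (by positivity)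
  have hNQ : N ^ a * Q ≤ T ^ (9 * e / 16) := by
    calc N ^ a * Q ≤ T ^ (e / 16) * T ^ (e / 2) := by rw [hQ]; gcongr; exact hNaq.trans hNq.le
      _ = T ^ (e / 16 + e / 2) := rp_mul hT0 _ _
      _ ≤ _ := Real.rpow_le_rpow_of_exponent_le hT1 (by linarith only [he])
  have hNQT : T ^ (9 * e / 16) ≤ T := by
    calc T ^ (9 * e / 16) ≤ T ^ (1:ℝ) := Real.rpow_le_rpow_of_exponent_le hT1 (by linarith only [he, he1])
      _ = T := Real.rpow_one T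
  have hNqZ : N ^ q ≤ T ^ (9 * e / 16) := by
    rw [hNq]
    exact Real.rpow_le_rpow_of_exponent_le hT1 (by linarith only [he])
  obtain ⟨Z, hZdef⟩ : ∃ Z : ℝ, Z = 3 * T ^ (9 * e / 16) := ⟨_, rfl⟩
  have hhz1 : 1 ≤ T ^ (9 * e / 16) := Real.one_le_rpow hT1 (by positivity)
  have hexp := Real.exp_one_lt_d9
  have hZ1 : N ^ a * Q * Real.exp 1 ≤ Z := by
    rw [hZdef]
    have hQ0 : 0 ≤ N ^ a * Q := by positivity
    nlinarith only [hNQ, hexp, hhz1, hQ0]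
  have hZ2 : N ^ q * Real.exp 1 ≤ Z := by
    rw [hZdef]
    have hQ0 : 0 ≤ N ^ q := by positivity
    nlinarith only [hNqZ, hexp, hhz1, hQ0]
  have hZ3 : 3 ≤ Z := by rw [hZdef]; linarith only [hhz1]
  obtain ⟨ρ, hρdef⟩ : ∃ ρ : ℝ, ρ = 1 / Z := ⟨_, rfl⟩
  have hZ0 : 0 < Z := by linarith only [hZ3]
  have hρ0 : 0 < ρ := by rw [hρdef]; exact one_div_pos.mpr hZ0
  have hρ1 : ρ ≤ 1 := by rw [hρdef, div_le_one hZ0]; linarith only [hZ3]
  obtain ⟨H, hH⟩ : ∃ H : ℝ, H = T ^ e := ⟨_, rfl⟩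
  obtain ⟨R, hR⟩ : ∃ R : ℝ, R = T ^ (2 * e) := ⟨_, rfl⟩
  have hH0 : 0 < H := by rw [hH]; exact Real.rpow_pos_of_pos hT0 _
  have hR0 : 0 < R := by rw [hR]; exact Real.rpow_pos_of_pos hT0 _
  -- exponential factors
  have hgρ : gq H ρ ≤ Real.exp (-(1 / 36 * T ^ (7 * e / 8))) := by
    unfold gq
    apply Real.exp_le_exp.mpr
    have e1 : H ^ 2 * ρ ^ 2 / 4 = 1 / 36 * T ^ (7 * e / 8) := by
      rw [hρdef, hZdef, hH, one_div, inv_pow, mul_pow, rp_sq hT0, rp_sq hT0]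
      have e2 : T ^ (2 * e) = T ^ (2 * (9 * e / 16)) * T ^ (7 * e / 8) := by
        rw [rp_mul hT0]; congr 1; ring
      rw [e2]
      have h3 : 0 < T ^ (2 * (9 * e / 16)) := Real.rpow_pos_of_pos hT0 _
      field_simp
      norm_num
    rw [e1]
  have hgR : Real.exp (-(R ^ 2 / (2 * H ^ 2))) = Real.exp (-(1 / 2 * T ^ (2 * e))) := RH_val hT0 hH hR hH0
  have hg1 : gq H 1 = Real.exp (-(1 / 4 * T ^ (2 * e))) := by
    unfold gq
    congr 1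
    rw [hH, rp_sq hT0]
    ring
  -- the zeta sum
  obtain ⟨X₀, hX₀⟩ : ∃ X₀ : ℕ, X₀ = ⌈3 * τ⌉₊ := ⟨_, rfl⟩
  have hτ0 : 0 < τ := by linarith only [hτ1, hT0]
  have hX3 : 3 * τ ≤ X₀ := by rw [hX₀]; exact Nat.le_ceil _
  have hX4 : (X₀:ℝ) ≤ 3 * τ + 1 := by
    rw [hX₀]
    exact (Nat.ceil_lt_add_one (by linarith only [hτ0])).le
  have hXT : (X₀:ℝ) ≤ 10 * T := by linarith only [hX4, hτ2, hT]
  have hXTl : T ≤ (X₀:ℝ) := by linarith only [hX3, hτ1, hT0]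
  have hX1 : (1:ℝ) ≤ X₀ := by linarith only [hXTl, hT1]
  have hNQX : N ^ a * Q ≤ (X₀:ℝ) := by linarith only [hNQ, hNQT, hXTl]
  have hQX : Q ≤ (X₀:ℝ) := by
    have : Q ≤ N ^ a * Q := by nlinarith only [hNa1, hQ1]
    linarith only [this, hNQX]
  obtain ⟨L, hLdef⟩ : ∃ L : ℝ, L = 10 ^ (q + 2) * T ^ (2 * (q + 2)) := ⟨_, rfl⟩
  have hNqT : N ^ q ≤ T := by linarith only [hNqZ, hNQT]
  have hL : (N ^ q * (X₀:ℝ)) ^ (q + 2) ≤ L := by
    have h1 : N ^ q * (X₀:ℝ) ≤ 10 * T ^ 2 := by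
      calc N ^ q * (X₀:ℝ) ≤ T * (10 * T) :=
            mul_le_mul hNqT hXT (by linarith only [hX1]) hT0.le
        _ = 10 * T ^ 2 := by ring
    calc (N ^ q * (X₀:ℝ)) ^ (q + 2) ≤ (10 * T ^ 2) ^ (q + 2) := pow_le_pow_left₀ (by positivity) h1 _
      _ = L := by rw [hLdef, mul_pow, ← pow_mul]
  have hLL : L * L = B * T ^ (4 * (q + 2)) := by
    rw [hLdef, hBd]
    have : T ^ (4 * (q + 2)) = T ^ (2 * (q + 2)) * T ^ (2 * (q + 2)) := by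
      rw [← pow_add]; congr 1; omega
    rw [this]; ring
  have hLL0 : 0 ≤ L * L := by rw [hLL]; positivity
  have hl0 : l1 (Aq N a) (N ^ a) ≤ L := (l1_Aq N X₀ hN1 hX1 a q haq).trans hL
  have hl0' : l1 (Aq N q) (N ^ q) ≤ L := (l1_Aq N X₀ hN1 hX1 q q le_rfl).trans hL
  have hl1 : l1 (zA N X₀ a) (N ^ a * X₀) ≤ L := (l1_zA N X₀ hN1 hX1 a q haq).trans hL
  have hl2 : l1 (gA N P Q a) (N ^ a * Q) ≤ L := (gA_l1 hN1 hQ1 hQX a q haq).trans hL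
  obtain ⟨e₁, he₁def⟩ : ∃ e₁ : ℝ, e₁ = 1575 * (Real.sqrt 2 * T ^ (-(1 / 2) : ℝ)) := ⟨_, rfl⟩
  have he₁0 : 0 ≤ e₁ := by rw [he₁def]; positivity
  have he₁1 : e₁ ≤ 1 := by rw [he₁def, ← mul_assoc]; exact g14
  have h4R : 4 * R ≤ T := R4_le hT0 hR g10
  have happ := app_val hT hτ1 h4R hX3 hX4 he₁def
  have hZb0 := Zb_val hT hXT he₁1 happ
  obtain ⟨Zb, hZbdef⟩ : ∃ Zb : ℝ, Zb = 8 * T ^ (1 / 2 : ℝ) := ⟨_, rfl⟩
  have hZbn : 0 ≤ Zb := by rw [hZbdef]; positivity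
  obtain ⟨w, hw⟩ : ∃ w : ℝ, w = R * (28 + 2 * R) / τ := ⟨_, rfl⟩
  have hRH' : T ^ e ≤ R := by
    rw [hR]; exact Real.rpow_le_rpow_of_exponent_le hT1 (by linarith only [he])
  have hR28 : 28 ≤ R := g9.trans hRH'
  have hw0 : 0 ≤ w := by rw [hw]; positivity
  have hwb := w_val hT hτ1 hR hR28 hw
  obtain ⟨e₂, he₂def⟩ : ∃ e₂ : ℝ, e₂ = Zb * w := ⟨_, rfl⟩
  have he₂0 : 0 ≤ e₂ := by rw [he₂def]; exact mul_nonneg hZbn hw0
  obtain ⟨Ω, hΩdef⟩ : ∃ Ω : ℝ, Ω = Real.log (τ / (2 * Real.pi)) := ⟨_, rfl⟩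
  have hΩ : Real.log T - 2 ≤ Ω := by rw [hΩdef]; exact Om_val hT hτ1
  have hΩ2 : Ω ≤ Real.log T := by
    rw [hΩdef]
    apply Real.log_le_log (by positivity)
    rw [div_le_iff₀ (by positivity)]
    have := Real.pi_gt_three
    nlinarith only [this, hτ2, hT0]
  obtain ⟨ψ, hψ1, -⟩ := phase (τ := τ) (R := R) (by linarith only [hτ1, hT]) hR0.le
    (by linarith only [hτ1, hT, h4R, hR0]) (u := 1) (by simp)
  rw [← hΩdef, ← hw] at hψ1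
  have hph : ∀ t ∈ Set.Ioc (τ - R) (τ + R), ‖Complex.exp ((ψ : ℂ) * Complex.I) * ex Ω t * zl t -
      (starRingEnd ℂ) (zl t)‖ ≤ e₂ := by
    intro t ht
    have h1 := ht.1
    have h2 := ht.2
    have h3 := hψ1 t (by rw [abs_le]; constructor <;> linarith only [h1, h2])
    rw [one_pow, one_mul] at h3
    refine h3.trans ?_
    rw [he₂def, hZbdef]
    exact mul_le_mul_of_nonneg_right (hZb0 t ht) hw0
  -- resonances
  have hlogN : Real.log (N ^ q) = e / 16 * Real.log T := by rw [hNq, Real.log_rpow hT0]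
  have hloga : Real.log (N ^ a) ≤ e / 16 * Real.log T :=
    (Real.log_le_log (by positivity) hNaq).trans hlogN.le
  have hlogP : Real.log P = e / 4 * Real.log T := by rw [hP, Real.log_rpow hT0]
  have hlogQ : Real.log Q = e / 2 * Real.log T := by rw [hQ, Real.log_rpow hT0]
  have heL : 32 ≤ e * Real.log T := by
    rw [div_le_iff₀ he] at g11
    linarith only [g11]
  have hnr : ∀ i ∈ M, ∀ n l : ℕ, 1 ≤ n → (n:ℝ) ≤ N ^ a → 1 ≤ l → P ≤ l → (l:ℝ) ≤ N ^ a * Q →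
      1 ≤ |(-Ω - -lam i) - Real.log n + Real.log l| := by
    intro i hi n l hn hna hl hPl hlQ
    have hn0 : (0:ℝ) < n := by exact_mod_cast hn
    have hn1 : (1:ℝ) ≤ n := by exact_mod_cast hn
    have hl0 : (0:ℝ) < l := by exact_mod_cast hl
    have k1 := Real.log_nonneg hn1
    have k2 := Real.log_le_log hn0 hna
    have k3 := Real.log_le_log (by linarith only [hP1]) hPl
    have k4 := Real.log_le_log hl0 hlQ
    rw [Real.log_mul (by positivity) (by linarith only [hQ1])] at k4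
    rcases hlam i hi with h5 | h5
    · refine le_trans ?_ (neg_le_abs _)
      rw [hlogQ] at k4
      have h6 : 16 * e * Real.log T ≤ (1 - θ) * Real.log T := mul_le_mul_of_nonneg_right heθ hL0.le
      nlinarith only [k1, k4, h5, h6, hloga, heL, hΩ]
    · refine le_trans ?_ (le_abs_self _)
      rw [hlogP] at k3
      nlinarith only [k2, k3, h5, hloga, heL, hΩ2]
  -- the inequality
  have hdir := reflect M b (fun i => -lam i) N X₀ P Q a (Real.exp (T ^ e)) Z ρ τ H R e₁ e₂ Ω ψ L hN1 hQ1 hX1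
    hQX hρ0.le hρ1 hZ1 (le_of_eq hρdef) hH0 hR0.le he₁0 he₂0 hl0 hl1 hl2 happ hb hph hnr
  rw [ha] at hdir hZ1 hl2 hNQX
  have hyo := VV_le M b (fun i => -lam i) q hq N P Q X₀ hN1 hQ1 hNQX Z ρ τ H R L μ hH0 hρ0.le hρ1 hZ1 hZ2
    (le_of_eq hρdef) hμpos hl2 hl0'
  have hSG := g1 X₀ P Q hP1 hQ1 hNQX (by
    rw [← ha, hlogP, hlogQ]
    linarith only [hloga, heL])
  have hU1 := g2 (N ^ q) hNqT
  have hU2 := g2 (N ^ (q - 2) * Q) (by rw [← ha]; linarith only [hNQ, hNQT])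
  rw [← hκdef] at hyo
  obtain ⟨Pw, hPw⟩ : ∃ Pw : ℝ, Pw = Real.log T ^ (κ ^ 2) := ⟨_, rfl⟩
  have hPw0 : 0 ≤ Pw := by rw [hPw]; positivity
  rw [← hPw] at hSG hU1 hU2 g8 ⊢
  rw [← hH, ← hR]
  have k4 : N ^ a ≤ T ^ (e / 16) := hNaq.trans hNq.le
  have k5 : Real.sqrt Q = T ^ (e / 4) := by
    rw [hQ, Real.sqrt_eq_rpow, ← Real.rpow_mul hT0.le]
    congr 1; ring
  -- errors
  have hE1 : L * L * gq H ρ + L * L * (2 * Real.exp (-(R ^ 2 / (2 * H ^ 2)))) +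
      e₁ * (N ^ (q - 2) * (N ^ (q - 2) * (2 * Real.sqrt Q))) ≤ 1 := by
    have k1 : L * L * gq H ρ ≤ 1 / 3 := by
      calc L * L * gq H ρ ≤ L * L * Real.exp (-(1 / 36 * T ^ (7 * e / 8))) := by gcongr
        _ = (3 * B * (T ^ (4 * (q + 2)) * Real.exp (-(1 / 36 * T ^ (7 * e / 8))))) / 3 := by rw [hLL]; ring
        _ ≤ 1 / 3 := by linarith only [g3]
    have k2 : L * L * (2 * Real.exp (-(R ^ 2 / (2 * H ^ 2)))) ≤ 1 / 3 := by
      calc L * L * (2 * Real.exp (-(R ^ 2 / (2 * H ^ 2)))) = L * L * (2 * Real.exp (-(1 / 2 * T ^ (2 * e)))) := by rw [hgR]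
        _ = (6 * B * (T ^ (4 * (q + 2)) * Real.exp (-(1 / 2 * T ^ (2 * e))))) / 3 := by rw [hLL]; ring
        _ ≤ 1 / 3 := by linarith only [g4]
    have k3 : e₁ * (N ^ (q - 2) * (N ^ (q - 2) * (2 * Real.sqrt Q))) ≤ 1 / 3 := by
      rw [← ha, k5]
      have k6 : T ^ (-(1 / 2) : ℝ) * (T ^ (e / 16) * (T ^ (e / 16) * T ^ (e / 4))) ≤ T ^ (-(1 / 4) : ℝ) := by
        rw [rp_mul hT0, rp_mul hT0, rp_mul hT0]
        exact Real.rpow_le_rpow_of_exponent_le hT1 (by linarith only [he, he1])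
      calc e₁ * (N ^ a * (N ^ a * (2 * T ^ (e / 4)))) ≤
          e₁ * (T ^ (e / 16) * (T ^ (e / 16) * (2 * T ^ (e / 4)))) := by gcongr
        _ = (1575 * Real.sqrt 2 * 2) * (T ^ (-(1 / 2) : ℝ) * (T ^ (e / 16) * (T ^ (e / 16) * T ^ (e / 4)))) := by
            rw [he₁def]; ring
        _ ≤ (1575 * Real.sqrt 2 * 2) * T ^ (-(1 / 4) : ℝ) := by gcongr
        _ ≤ 1 / 3 := by linarith only [g7]
    linarith only [k1, k2, k3]
  have hE2 : Real.exp (T ^ e) * (L * L * gq H 1 + L * L * (2 * Real.exp (-(R ^ 2 / (2 * H ^ 2))))) ≤ 1 := by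
    have k0 : T ^ e ≤ 1 / 8 * T ^ (2 * e) := by
      have e1 : T ^ (2 * e) = T ^ e * T ^ e := by rw [rp_mul hT0]; congr 1; ring
      rw [e1]
      have : 0 < T ^ e := Real.rpow_pos_of_pos hT0 _
      nlinarith only [this, g9]
    have hP2 : 0 < T ^ (2 * e) := Real.rpow_pos_of_pos hT0 _
    have k1 : Real.exp (T ^ e) * (L * L * gq H 1) ≤ 1 / 3 := by
      rw [hg1]
      calc Real.exp (T ^ e) * (L * L * Real.exp (-(1 / 4 * T ^ (2 * e)))) ≤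
          Real.exp (1 / 8 * T ^ (2 * e)) * (L * L * Real.exp (-(1 / 4 * T ^ (2 * e)))) := by gcongr
        _ = (L * L) * (Real.exp (1 / 8 * T ^ (2 * e)) * Real.exp (-(1 / 4 * T ^ (2 * e)))) := by ring
        _ = (L * L) * Real.exp (-(1 / 8 * T ^ (2 * e))) := by rw [← Real.exp_add]; congr 2; ring
        _ = (6 * B * (T ^ (4 * (q + 2)) * Real.exp (-(1 / 8 * T ^ (2 * e))))) / 6 := by rw [hLL]; ring
        _ ≤ 1 / 3 := by linarith only [g6]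
    have k2 : Real.exp (T ^ e) * (L * L * (2 * Real.exp (-(R ^ 2 / (2 * H ^ 2))))) ≤ 1 / 3 := by
      rw [hgR]
      have k3 : Real.exp (-(1 / 2 * T ^ (2 * e))) ≤ Real.exp (-(1 / 4 * T ^ (2 * e))) := by
        apply Real.exp_le_exp.mpr
        linarith only [hP2]
      calc Real.exp (T ^ e) * (L * L * (2 * Real.exp (-(1 / 2 * T ^ (2 * e))))) ≤
          Real.exp (1 / 8 * T ^ (2 * e)) * (L * L * (2 * Real.exp (-(1 / 4 * T ^ (2 * e))))) := by gcongr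
        _ = (L * L) * 2 * (Real.exp (1 / 8 * T ^ (2 * e)) * Real.exp (-(1 / 4 * T ^ (2 * e)))) := by ring
        _ = (L * L) * 2 * Real.exp (-(1 / 8 * T ^ (2 * e))) := by rw [← Real.exp_add]; congr 2; ring
        _ = (6 * B * (T ^ (4 * (q + 2)) * Real.exp (-(1 / 8 * T ^ (2 * e))))) / 3 := by rw [hLL]; ring
        _ ≤ 1 / 3 := by linarith only [g6]
    rw [mul_add]
    linarith only [k1, k2]
  have hE3 : e₂ * (N ^ (q - 2) * (N ^ (q - 2) * (2 * Real.sqrt Q))) ≤ 1 := by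
    rw [← ha, k5]
    have k6 : T ^ (1 / 2 : ℝ) * (T ^ (-(1 - 4 * e)) * (T ^ (e / 16) * (T ^ (e / 16) * T ^ (e / 4)))) ≤ T ^ (-(1 / 5) : ℝ) := by
      rw [rp_mul hT0, rp_mul hT0, rp_mul hT0, rp_mul hT0]
      exact Real.rpow_le_rpow_of_exponent_le hT1 (by linarith only [he, he1])
    calc e₂ * (N ^ a * (N ^ a * (2 * T ^ (e / 4)))) ≤
        (8 * T ^ (1 / 2 : ℝ) * (3 * T ^ (-(1 - 4 * e)))) * (T ^ (e / 16) * (T ^ (e / 16) * (2 * T ^ (e / 4)))) := by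
          rw [he₂def, hZbdef]; gcongr
      _ = 48 * (T ^ (1 / 2 : ℝ) * (T ^ (-(1 - 4 * e)) * (T ^ (e / 16) * (T ^ (e / 16) * T ^ (e / 4))))) := by ring
      _ ≤ 48 * T ^ (-(1 / 5) : ℝ) := by gcongr
      _ ≤ 1 := g13
  have hg : μ * (2 * (L * L * gq H ρ)) ≤ 1 := by
    calc μ * (2 * (L * L * gq H ρ)) ≤ μ * (2 * (L * L * Real.exp (-(1 / 36 * T ^ (7 * e / 8))))) := by gcongr
      _ = μ * 2 * B * (T ^ (4 * (q + 2)) * Real.exp (-(1 / 36 * T ^ (7 * e / 8)))) := by rw [hLL]; ring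
      _ ≤ 1 := g5
  have hfin := fin_window3 hμdef hA₀ hCu hPw0 hSG hdir hyo hE1 hE2 hE3 hU1 hU2 hg g8
  have hden : 0 < 2 * (μ⁻¹) ^ (q - 1) := by positivity
  rw [div_mul_eq_mul_div, div_le_iff₀ hden]
  linarith only [hfin]

end

end Pool.Agent.K7.H52.MD
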