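import Pool.Agent.K7.H52.MD.E

set_option autoImplicit false

/-! Arbitrary coefficients: an a priori bound, and the average over windows. -/

namespace Pool.Agent.K7.H52.MD

open Finset MeasureTheory Filter Topology
open Pool.Agent.H306R2 Pool.Agent.R311.SE
open Pool.Agent.R311.BS hiding zl zl_cont

noncomputable section

lemma ex_conj (x t : ℝ) : (starRingEnd ℂ) (ex x t) = ex (-x) t := by
  unfold ex
  rw [← Complex.exp_conj, map_mul, Complex.conj_ofReal, Complex.conj_I]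
  congr 1
  push_cast
  ring

lemma TP_sq {ι : Type*} (M : Finset ι) (b : ι → ℂ) (ω : ι → ℝ) (t : ℝ) :
    ((‖TP M b ω t‖ ^ 2 : ℝ) : ℂ) = ∑ i ∈ M, ∑ j ∈ M, b i * (starRingEnd ℂ) (b j) * ex (ω i - ω j) t := by
  have h1 : ((‖TP M b ω t‖ ^ 2 : ℝ) : ℂ) = TP M b ω t * (starRingEnd ℂ) (TP M b ω t) := by
    rw [Complex.mul_conj, Complex.normSq_eq_norm_sq]
  rw [h1]
  unfold TP
  rw [map_sum, sum_mul_sum]
  refine sum_congr rfl fun i _ => sum_congr rfl fun j _ => ?_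
  rw [map_mul, ex_conj, sub_eq_add_neg, ex_add]
  ring

lemma TP_sq_lower {ι : Type*} (M : Finset ι) (b : ι → ℂ) (ω : ι → ℝ) (ρ : ℝ) (hρ : 0 ≤ ρ)
    (hsep : ∀ i ∈ M, ∀ j ∈ M, i ≠ j → ρ ≤ |ω i - ω j|) (τ H : ℝ) (hH : 0 < H) :
    (∑ i ∈ M, ‖b i‖ ^ 2) * (1 - M.card * gq H ρ) ≤ ∫ t, ‖TP M b ω t‖ ^ 2 * gw τ H t := by
  classical
  have hI : ∀ i j : ι, Integrable (fun t : ℝ => (b i * (starRingEnd ℂ) (b j)) * (ex (ω i - ω j) t * (gw τ H t : ℂ))) :=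
    fun i j => gex_int τ H hH _ _
  have e1 : ∀ t : ℝ, ((‖TP M b ω t‖ ^ 2 * gw τ H t : ℝ) : ℂ) =
      ∑ i ∈ M, ∑ j ∈ M, (b i * (starRingEnd ℂ) (b j)) * (ex (ω i - ω j) t * (gw τ H t : ℂ)) := by
    intro t
    rw [Complex.ofReal_mul, TP_sq, sum_mul]
    refine sum_congr rfl fun i _ => ?_
    rw [sum_mul]
    refine sum_congr rfl fun j _ => ?_
    ring
  have e2 : ((∫ t, ‖TP M b ω t‖ ^ 2 * gw τ H t : ℝ) : ℂ) =
      ∑ i ∈ M, ∑ j ∈ M, (b i * (starRingEnd ℂ) (b j)) * (ex (ω i - ω j) τ * (gq H (ω i - ω j) : ℝ)) := by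
    rw [← integral_complex_ofReal]
    simp only [e1]
    rw [integral_finsetSum _ fun i _ => integrable_finsetSum _ fun j _ => hI i j]
    refine sum_congr rfl fun i _ => ?_
    rw [integral_finsetSum _ fun j _ => hI i j]
    refine sum_congr rfl fun j _ => ?_
    rw [integral_const_mul, gex τ H hH]
    rfl
  -- split off the diagonal
  have e3 : ∀ i ∈ M, ∀ j ∈ M, ‖(b i * (starRingEnd ℂ) (b j)) * (ex (ω i - ω j) τ * (gq H (ω i - ω j) : ℝ)) -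
      (if i = j then ((‖b i‖ ^ 2 : ℝ) : ℂ) else 0)‖ ≤ ‖b i‖ * ‖b j‖ * gq H ρ := by
    intro i hi j hj
    by_cases hij : i = j
    · subst hij
      rw [if_pos rfl, sub_self]
      have h0 : ex 0 τ = 1 := by unfold ex; simp
      have h1 : gq H 0 = 1 := by unfold gq; simp
      have h2 : b i * (starRingEnd ℂ) (b i) = ((‖b i‖ ^ 2 : ℝ) : ℂ) := by
        rw [Complex.mul_conj, Complex.normSq_eq_norm_sq]
      rw [h0, h1, h2]
      have : ((‖b i‖ ^ 2 : ℝ) : ℂ) * (1 * ((1:ℝ):ℂ)) - ((‖b i‖ ^ 2 : ℝ) : ℂ) = 0 := by push_cast; ring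
      rw [this, norm_zero]
      have := gq_nonneg H ρ
      positivity
    · rw [if_neg hij, sub_zero, norm_mul, norm_mul, norm_mul, RCLike.norm_conj, ex_norm, one_mul, Complex.norm_real,
        Real.norm_of_nonneg (gq_nonneg _ _)]
      exact mul_le_mul_of_nonneg_left (gq_far H _ ρ hρ (hsep i hi j hj hij)) (by positivity)
  have e4 : ‖((∫ t, ‖TP M b ω t‖ ^ 2 * gw τ H t : ℝ) : ℂ) - ((∑ i ∈ M, ‖b i‖ ^ 2 : ℝ) : ℂ)‖ ≤
      (∑ i ∈ M, ‖b i‖) ^ 2 * gq H ρ := by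
    have h1 : ((∑ i ∈ M, ‖b i‖ ^ 2 : ℝ) : ℂ) = ∑ i ∈ M, ∑ j ∈ M, (if i = j then ((‖b i‖ ^ 2 : ℝ) : ℂ) else 0) := by
      push_cast
      refine sum_congr rfl fun i hi => ?_
      rw [sum_ite_eq, if_pos hi]
    rw [e2, h1, ← sum_sub_distrib]
    calc ‖∑ i ∈ M, ((∑ j ∈ M, (b i * (starRingEnd ℂ) (b j)) * (ex (ω i - ω j) τ * (gq H (ω i - ω j) : ℝ))) -
          ∑ j ∈ M, (if i = j then ((‖b i‖ ^ 2 : ℝ) : ℂ) else 0))‖ ≤
        ∑ i ∈ M, ∑ j ∈ M, ‖b i‖ * ‖b j‖ * gq H ρ := by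
          refine norm_sum_le_of_le _ fun i hi => ?_
          rw [← sum_sub_distrib]
          exact norm_sum_le_of_le _ fun j hj => e3 i hi j hj
      _ = (∑ i ∈ M, ‖b i‖) ^ 2 * gq H ρ := by
          rw [sq, sum_mul_sum, sum_mul]
          refine sum_congr rfl fun i _ => ?_
          rw [sum_mul]
  rw [← Complex.ofReal_sub, Complex.norm_real, Real.norm_eq_abs] at e4
  have h5 := neg_abs_le ((∫ t, ‖TP M b ω t‖ ^ 2 * gw τ H t) - ∑ i ∈ M, ‖b i‖ ^ 2)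
  have h6 : (∑ i ∈ M, ‖b i‖) ^ 2 ≤ M.card * ∑ i ∈ M, ‖b i‖ ^ 2 := sq_sum_le_card_mul_sum_sq
  have h7 := mul_le_mul_of_nonneg_right h6 (gq_nonneg H ρ)
  nlinarith only [e4, h5, h7]

lemma TP_sq_int {ι : Type*} (M : Finset ι) (b : ι → ℂ) (ω : ι → ℝ) (τ H : ℝ) (hH : 0 < H) :
    Integrable (fun t => ‖TP M b ω t‖ ^ 2 * gw τ H t) := by
  refine (gw_integrable τ H hH).bdd_mul (c := (∑ i ∈ M, ‖b i‖) ^ 2)
    ((TP_cont M b ω).norm.pow 2).aestronglyMeasurable ?_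
  refine Eventually.of_forall fun t => ?_
  rw [Real.norm_of_nonneg (by positivity)]
  exact pow_le_pow_left₀ (norm_nonneg _) (TP_norm M b ω t) 2

/-- the coefficients are bounded in terms of the distance -/
theorem apriori {ι : Type*} (M : Finset ι) (b : ι → ℂ) (ω : ι → ℝ) (q : ℕ) (hq : 2 ≤ q) (ρ : ℝ) (hρ : 0 ≤ ρ)
    (hsep : ∀ i ∈ M, ∀ j ∈ M, i ≠ j → ρ ≤ |ω i - ω j|) (τ H R Zb : ℝ) (hH : 0 < H) (hR : 0 ≤ R)
    (hZ : ∀ t ∈ Set.Ioc (τ - R) (τ + R), ‖zl t‖ ≤ Zb)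
    (hsmall : M.card * gq H ρ + M.card * (2 * Real.exp (-(R ^ 2 / (2 * H ^ 2)))) ≤ 1 / 2) :
    ∑ i ∈ M, ‖b i‖ ^ 2 ≤ 4 * Zb ^ 2 + 4 + 4 * GG M b ω q τ H R := by
  set S2 := ∑ i ∈ M, ‖b i‖ ^ 2 with hS2
  have hS0 : 0 ≤ S2 := sum_nonneg fun i _ => by positivity
  set I := Set.Ioc (τ - R) (τ + R) with hI
  have hIm : MeasurableSet I := measurableSet_Ioc
  have hFi := TP_sq_int M b ω τ H hH
  have hlow := TP_sq_lower M b ω ρ hρ hsep τ H hH
  rw [← hS2, ← integral_add_compl hIm hFi] at hlow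
  have h6 : (∑ i ∈ M, ‖b i‖) ^ 2 ≤ M.card * S2 := sq_sum_le_card_mul_sum_sq
  have hgwI := gw_integrable τ H hH
  have htail : ∫ t in Iᶜ, ‖TP M b ω t‖ ^ 2 * gw τ H t ≤ (M.card * S2) * (2 * Real.exp (-(R ^ 2 / (2 * H ^ 2)))) := by
    calc ∫ t in Iᶜ, ‖TP M b ω t‖ ^ 2 * gw τ H t ≤ ∫ t in Iᶜ, (M.card * S2) * gw τ H t := by
          refine setIntegral_mono_on hFi.integrableOn (hgwI.const_mul _).integrableOn hIm.compl fun t _ => ?_
          have hg := gw_nonneg τ H t hH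
          have h7 : ‖TP M b ω t‖ ^ 2 ≤ M.card * S2 :=
            (pow_le_pow_left₀ (norm_nonneg _) (TP_norm M b ω t) 2).trans h6
          exact mul_le_mul_of_nonneg_right h7 hg
      _ = (M.card * S2) * ∫ t in Iᶜ, gw τ H t := integral_const_mul _ _
      _ ≤ (M.card * S2) * (2 * Real.exp (-(R ^ 2 / (2 * H ^ 2)))) := by
          refine mul_le_mul_of_nonneg_left ?_ (by positivity)
          exact gw_tail τ H R hH hR
  have hTc := TP_cont M b ω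
  have hgc := gw_continuous τ H
  have hzc := zl_cont
  have contR : ∀ F : ℝ → ℝ, Continuous F → IntegrableOn F I := fun F hF =>
    (hF.integrableOn_Icc (a := τ - R) (b := τ + R)).mono_set Set.Ioc_subset_Icc_self
  have hgI : ∫ t in I, gw τ H t ≤ 1 := by
    rw [← gw_integral τ H hH]
    exact setIntegral_le_integral hgwI (Eventually.of_forall fun t => gw_nonneg τ H t hH)
  have hmain : ∫ t in I, ‖TP M b ω t‖ ^ 2 * gw τ H t ≤ 2 * Zb ^ 2 + 2 + 2 * GG M b ω q τ H R := by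
    calc ∫ t in I, ‖TP M b ω t‖ ^ 2 * gw τ H t ≤
        ∫ t in I, ((2 * Zb ^ 2 + 2) * gw τ H t + 2 * (‖zl t - TP M b ω t‖ ^ q * gw τ H t)) := by
          refine setIntegral_mono_on hFi.integrableOn (contR _ (by fun_prop)) hIm fun t ht => ?_
          have hg := gw_nonneg τ H t hH
          have h1 := hZ t ht
          have h2 : ‖TP M b ω t‖ ≤ ‖zl t‖ + ‖zl t - TP M b ω t‖ := by
            have : TP M b ω t = zl t - (zl t - TP M b ω t) := by ring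
            conv_lhs => rw [this]
            exact norm_sub_le _ _
          have h3 : ‖zl t - TP M b ω t‖ ^ 2 ≤ 1 + ‖zl t - TP M b ω t‖ ^ q := by
            rcases le_total 1 ‖zl t - TP M b ω t‖ with h4 | h4
            · have := pow_le_pow_right₀ h4 hq
              linarith
            · have h5 : ‖zl t - TP M b ω t‖ ^ 2 ≤ 1 := pow_le_one₀ (norm_nonneg _) h4
              have h6 : 0 ≤ ‖zl t - TP M b ω t‖ ^ q := by positivity
              linarith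
          have h4 : ‖TP M b ω t‖ ^ 2 ≤ 2 * Zb ^ 2 + 2 + 2 * ‖zl t - TP M b ω t‖ ^ q := by
            have h5 : ‖TP M b ω t‖ ^ 2 ≤ (‖zl t‖ + ‖zl t - TP M b ω t‖) ^ 2 := pow_le_pow_left₀ (norm_nonneg _) h2 2
            have h6 : ‖zl t‖ ^ 2 ≤ Zb ^ 2 := pow_le_pow_left₀ (norm_nonneg _) h1 2
            nlinarith only [h3, h5, h6, sq_nonneg (‖zl t‖ - ‖zl t - TP M b ω t‖)]
          calc ‖TP M b ω t‖ ^ 2 * gw τ H t ≤ (2 * Zb ^ 2 + 2 + 2 * ‖zl t - TP M b ω t‖ ^ q) * gw τ H t :=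
                mul_le_mul_of_nonneg_right h4 hg
            _ = _ := by ring
      _ = (2 * Zb ^ 2 + 2) * (∫ t in I, gw τ H t) + 2 * GG M b ω q τ H R := by
          rw [integral_add (contR _ (by fun_prop)) (contR _ (by fun_prop)), integral_const_mul, integral_const_mul]
          rfl
      _ ≤ 2 * Zb ^ 2 + 2 + 2 * GG M b ω q τ H R := by
          have : 0 ≤ 2 * Zb ^ 2 + 2 := by positivity
          nlinarith only [this, hgI]
  have h8 := mul_le_mul_of_nonneg_left hsmall hS0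
  nlinarith only [h8, hmain, htail, hlow]

lemma GG_nonneg {ι : Type*} (M : Finset ι) (b : ι → ℂ) (ω : ι → ℝ) (q : ℕ) (τ H R : ℝ) (hH : 0 < H) :
    0 ≤ GG M b ω q τ H R := by
  unfold GG
  refine setIntegral_nonneg measurableSet_Ioc fun t _ => ?_
  have := gw_nonneg τ H t hH
  positivity

/-- separated frequencies with a gap, arbitrary coefficients -/
theorem win_sep (q : ℕ) (hq : 2 ≤ q) {ε α β : ℝ} (hε : 0 < ε) (hε1 : ε ≤ 1) (hα : 0 ≤ α) (hαβ : α < β) (hβ : β ≤ 1) :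
    ∃ c : ℝ, 0 < c ∧ ∀ᶠ T : ℝ in atTop, ∀ h : ℝ, T ^ ε ≤ h → h ≤ T → ∀ τ : ℝ, T ≤ τ → τ ≤ 2 * T →
      ∀ (ι : Type) (M : Finset ι) (b : ι → ℂ) (lam : ι → ℝ),
      (M.card : ℝ) ≤ Real.exp (T ^ (ε * (β - α) / 16)) →
      (∀ i ∈ M, ∀ j ∈ M, i ≠ j → h ^ (-α) ≤ |lam i - lam j|) →
      (∀ i ∈ M, lam i ≤ α * Real.log h ∨ β * Real.log h ≤ lam i) →
      c * Real.log T ^ (((q:ℝ) / 2) ^ 2) ≤
        GG M b (fun i => -lam i) q τ (h ^ (1 - (β - α) / 4)) (h ^ (1 - (β - α) / 8)) := by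
  obtain ⟨c, hc, hwin⟩ := win_direct q hq hε hε1 hα hαβ hβ
  refine ⟨min c 1, lt_min hc one_pos, ?_⟩
  obtain ⟨γ, hγ⟩ : ∃ γ : ℝ, γ = (β - α) / 8 := ⟨_, rfl⟩
  have hγ0 : 0 < γ := by rw [hγ]; linarith only [hαβ]
  have hεγ : 0 < ε * γ := by positivity
  have ev3 := ev_small 1 1 (ε * γ) 300 one_pos hεγ
  have ev4 := Pool.Agent.R311.BS.ev_pow (1575 * Real.sqrt 2) (1 / 2) (by norm_num)
  have ev5 : ∀ᶠ T : ℝ in atTop, Real.log T ^ (((q:ℝ) / 2) ^ 2) ≤ T := by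
    have := isLittleO_log_rpow_rpow_atTop (((q:ℝ) / 2) ^ 2) one_pos
    filter_upwards [this.bound one_pos, eventually_ge_atTop 1] with T hT hT1
    rw [Real.rpow_one, Real.norm_of_nonneg (by linarith : (0:ℝ) ≤ T), one_mul] at hT
    exact (le_abs_self _).trans hT
  have ev6 := ev_rpow_ge (4 ^ (1 / γ)) ε hε
  have ev7 := ev_rpow_ge 4 (ε * γ / 2) (by positivity)
  filter_upwards [hwin, ev3, ev4, ev5, ev6, ev7, eventually_ge_atTop 1000] with T hw g3 g4 g5 g6 g7 hT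
    h hh1 hh2 τ hτ1 hτ2 ι M b lam hcard hsep hgap
  have hT0 : 0 < T := by linarith only [hT]
  have hT1 : 1 ≤ T := by linarith only [hT]
  have hh01 : 1 ≤ h := (Real.one_le_rpow hT1 hε.le).trans hh1
  have hh0 : 0 < h := by linarith only [hh01]
  have hlog0 : 0 ≤ Real.log T := Real.log_nonneg hT1
  have hLp : 0 ≤ Real.log T ^ (((q:ℝ) / 2) ^ 2) := by positivity
  obtain ⟨H, hH⟩ : ∃ H : ℝ, H = h ^ (1 - (β - α) / 4) := ⟨_, rfl⟩
  obtain ⟨R, hR⟩ : ∃ R : ℝ, R = h ^ (1 - (β - α) / 8) := ⟨_, rfl⟩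
  rw [← hH, ← hR]
  have hH0 : 0 < H := by rw [hH]; positivity
  have hR0 : 0 < R := by rw [hR]; positivity
  by_cases hGT : T ≤ GG M b (fun n => -lam n) q τ H R
  · refine le_trans ?_ hGT
    calc min c 1 * Real.log T ^ (((q:ℝ) / 2) ^ 2) ≤ 1 * Real.log T ^ (((q:ℝ) / 2) ^ 2) := by
          gcongr; exact min_le_right _ _
      _ ≤ T := by rw [one_mul]; exact g5
  rw [not_le] at hGT
  -- approximation of zeta on the window
  have h4R : 4 * R ≤ T := by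
    have e1 : 4 ≤ h ^ γ := by
      have e2 : (4 ^ (1 / γ) : ℝ) ≤ h := g6.trans hh1
      calc (4:ℝ) = (4 ^ (1 / γ) : ℝ) ^ γ := by
            rw [← Real.rpow_mul (by norm_num), one_div_mul_cancel hγ0.ne', Real.rpow_one]
        _ ≤ h ^ γ := Real.rpow_le_rpow (by positivity) e2 hγ0.le
    have e3 : h ^ γ * R = h := by
      rw [hR, ← Real.rpow_add hh0, hγ]
      conv_rhs => rw [← Real.rpow_one h]
      congr 1; ring
    calc 4 * R ≤ h ^ γ * R := by gcongr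
      _ = h := e3
      _ ≤ T := hh2
  obtain ⟨X₀, hX₀⟩ : ∃ X₀ : ℕ, X₀ = ⌈3 * τ⌉₊ := ⟨_, rfl⟩
  have hτ0 : 0 < τ := by linarith only [hτ1, hT0]
  have hX3 : 3 * τ ≤ X₀ := by rw [hX₀]; exact Nat.le_ceil _
  have hX4 : (X₀:ℝ) ≤ 3 * τ + 1 := by
    rw [hX₀]
    exact (Nat.ceil_lt_add_one (by linarith only [hτ0])).le
  have hXT : (X₀:ℝ) ≤ 10 * T := by linarith only [hX4, hτ2, hT]
  obtain ⟨e₁, he₁def⟩ : ∃ e₁ : ℝ, e₁ = 1575 * (Real.sqrt 2 * T ^ (-(1 / 2) : ℝ)) := ⟨_, rfl⟩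
  have he₁1 : e₁ ≤ 1 := by rw [he₁def, ← mul_assoc]; exact g4
  have happ := app_val hT hτ1 h4R hX3 hX4 he₁def
  have hZb := Zb_val hT hXT he₁1 happ
  -- exponentially small quantities
  obtain ⟨y, hy⟩ : ∃ y : ℝ, y = T ^ (ε * γ / 2) := ⟨_, rfl⟩
  have hy4 : 4 ≤ y := by rw [hy]; exact g7
  have hy2 : T ^ (ε * γ) = y ^ 2 := by
    rw [hy, ← Real.rpow_natCast, ← Real.rpow_mul hT0.le]; congr 1; push_cast; ring
  have hcard' : (M.card : ℝ) ≤ Real.exp y := by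
    rw [hy]
    have e1 : ε * γ / 2 = ε * (β - α) / 16 := by rw [hγ]; ring
    rw [e1]; exact hcard
  have hhγ : y ^ 2 ≤ h ^ γ := by
    rw [← hy2, Real.rpow_mul hT0.le]
    exact Real.rpow_le_rpow (by positivity) hh1 hγ0.le
  have hy2' : 16 ≤ y ^ 2 := by nlinarith only [hy4]
  have hyy : y ≤ y ^ 2 / 4 := by nlinarith only [hy4]
  have hexp8 : Real.exp y * Real.exp (-(1 / 4 * (y ^ 2) ^ 2)) ≤ 1 / 8 := by
    rw [← Real.exp_add]
    have e1 : y + -(1 / 4 * (y ^ 2) ^ 2) ≤ -60 := by nlinarith only [hyy, hy2']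
    calc Real.exp (y + -(1 / 4 * (y ^ 2) ^ 2)) ≤ Real.exp (-60) := Real.exp_le_exp.mpr e1
      _ = (Real.exp 60)⁻¹ := Real.exp_neg _
      _ ≤ (8:ℝ)⁻¹ := by
          apply inv_anti₀ (by norm_num)
          have := Real.add_one_le_exp (60:ℝ)
          linarith only [this]
      _ = 1 / 8 := by norm_num
  have hgsmall : (M.card : ℝ) * gq H (h ^ (-α)) ≤ 1 / 4 := by
    have hle : gq H (h ^ (-α)) ≤ Real.exp (-(1 / 4 * (y ^ 2) ^ 2)) := by
      unfold gq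
      apply Real.exp_le_exp.mpr
      have e1 : y ^ 2 ≤ H * h ^ (-α) := by
        rw [hH, ← Real.rpow_add hh0]
        refine hhγ.trans (Real.rpow_le_rpow_of_exponent_le hh01 ?_)
        rw [hγ]; linarith only [hαβ, hβ]
      have e2 : H ^ 2 * (h ^ (-α)) ^ 2 / 4 = 1 / 4 * (H * h ^ (-α)) ^ 2 := by ring
      rw [e2]
      have e4 := pow_le_pow_left₀ (by positivity) e1 2
      linarith only [e4]
    calc (M.card : ℝ) * gq H (h ^ (-α)) ≤ Real.exp y * Real.exp (-(1 / 4 * (y ^ 2) ^ 2)) := by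
          have := gq_nonneg H (h ^ (-α))
          gcongr
      _ ≤ 1 / 4 := by linarith only [hexp8]
  have hRsmall : (M.card : ℝ) * (2 * Real.exp (-(R ^ 2 / (2 * H ^ 2)))) ≤ 1 / 4 := by
    have hle : Real.exp (-(R ^ 2 / (2 * H ^ 2))) ≤ Real.exp (-(1 / 4 * (y ^ 2) ^ 2)) := by
      apply Real.exp_le_exp.mpr
      have e1 : R = H * h ^ γ := by
        rw [hR, hH, ← Real.rpow_add hh0, hγ]
        congr 1; ring
      have e2 : R ^ 2 / (2 * H ^ 2) = 1 / 2 * (h ^ γ) ^ 2 := by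
        rw [e1, mul_pow]
        field_simp
      rw [e2]
      have e4 := pow_le_pow_left₀ (by positivity) hhγ 2
      have e5 : 0 ≤ (y ^ 2) ^ 2 := by positivity
      linarith only [e4, e5]
    calc (M.card : ℝ) * (2 * Real.exp (-(R ^ 2 / (2 * H ^ 2)))) ≤ Real.exp y * (2 * Real.exp (-(1 / 4 * (y ^ 2) ^ 2))) := by
          gcongr
      _ ≤ 1 / 4 := by linarith only [hexp8]
  have hap := apriori M b (fun n => -lam n) q hq (h ^ (-α)) (by positivity) (by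
    intro i hi j hj hij
    have h1 := hsep i hi j hj hij
    have h2 : -lam i - -lam j = -(lam i - lam j) := by ring
    rw [h2, abs_neg]
    exact h1) τ H R (8 * T ^ (1 / 2 : ℝ)) hH0 hR0.le hZb (by linarith only [hgsmall, hRsmall])
  have hsqT : (8 * T ^ (1 / 2 : ℝ)) ^ 2 = 64 * T := by
    rw [mul_pow, ← Real.rpow_natCast (T ^ (1 / 2 : ℝ)), ← Real.rpow_mul hT0.le]
    norm_num
  rw [hsqT] at hap
  have hS2 : ∑ i ∈ M, ‖b i‖ ^ 2 ≤ 300 * T := by linarith only [hap, hGT, hT]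
  have hTy : 300 * T ≤ Real.exp (y ^ 2) := by
    have e2 : 300 * (T ^ 1 * Real.exp (-(1 * T ^ (ε * γ)))) ≤ 1 := g3
    rw [one_mul, pow_one, Real.exp_neg, ← div_eq_mul_inv, ← mul_div_assoc, div_le_one (Real.exp_pos _)] at e2
    rw [← hy2]; exact e2
  have hS1 : (∑ i ∈ M, ‖b i‖) ^ 2 ≤ (Real.exp (y ^ 2)) ^ 2 := by
    calc (∑ i ∈ M, ‖b i‖) ^ 2 ≤ M.card * ∑ i ∈ M, ‖b i‖ ^ 2 := sq_sum_le_card_mul_sum_sq
      _ ≤ Real.exp y * (300 * T) := by gcongr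
      _ ≤ Real.exp (y ^ 2) * Real.exp (y ^ 2) := by
          gcongr
          nlinarith only [hy4]
      _ = (Real.exp (y ^ 2)) ^ 2 := by ring
  have hS1' : ∑ i ∈ M, ‖b i‖ ≤ Real.exp (y ^ 2) :=
    (pow_le_pow_iff_left₀ (sum_nonneg fun _ _ => norm_nonneg _) (by positivity) two_ne_zero).mp hS1
  have hfin : ∑ i ∈ M, ‖b i‖ ≤ Real.exp (T ^ (ε * (β - α) / 8)) := by
    have e1 : ε * (β - α) / 8 = ε * γ := by rw [hγ]; ring
    rw [e1, hy2]
    exact hS1'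
  have hres := hw h hh1 hh2 τ hτ1 hτ2 ι M b lam hfin hgap
  rw [← hH, ← hR] at hres
  refine le_trans ?_ hres
  gcongr
  exact min_le_left _ _

end

end Pool.Agent.K7.H52.MD
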