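import Pool.Agent.K7.H52.MD.F
import Pool.Agent.R311.BS.WF

set_option autoImplicit false

/-! Averaging over windows: the distance of zeta from exponential sums with a spectral gap. -/

namespace Pool.Agent.K7.H52.MD

open Finset MeasureTheory Filter Topology
open Pool.Agent.H306R2 Pool.Agent.R311.SE
open Pool.Agent.R311.BS hiding zl zl_cont

noncomputable section

lemma avg_step {ι : Type*} (M : Finset ι) (b : ι → ℂ) (ω : ι → ℝ) (q : ℕ) (T H Hw Rw J : ℝ)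
    (hHw : 0 < Hw) (hRw : 0 ≤ Rw) (h4 : 4 * Rw ≤ H) (hJ : 0 ≤ J)
    (h : ∀ τ : ℝ, T + Rw ≤ τ → τ ≤ T + H - Rw → J ≤ GG M b ω q τ Hw Rw) :
    H / 2 * J ≤ ∫ t in Set.Icc T (T + H), ‖zl t - TP M b ω t‖ ^ q := by
  have hTc := TP_cont M b ω
  have hzc := zl_cont
  have hFc : Continuous (fun t => ‖zl t - TP M b ω t‖ ^ q) := by fun_prop
  have hav := averaging (fun t => ‖zl t - TP M b ω t‖ ^ q) hFc (fun t => by positivity)
    (Set.Icc T (T + H)) measurableSet_Icc T (T + H)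
    (subset_refl _) (fun τ t => gw τ Hw t) (gw_uncurry _)
    (fun τ t => gw_nonneg _ _ _ hHw) (gw_lint _ hHw) (T + Rw) (T + H - Rw)
    J (by linarith) hJ (by
      intro τ hτ
      refine (h τ hτ.1 hτ.2).trans ?_
      unfold GG
      refine setIntegral_mono_set ?_ ?_ ?_
      · exact (hFc.mul (gw_continuous _ _)).integrableOn_Icc
      · refine Eventually.of_forall fun t => ?_
        have := gw_nonneg τ Hw t hHw
        simp only [Pi.zero_apply]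
        positivity
      · refine Eventually.of_forall fun t ht => ?_
        refine ⟨?_, ?_⟩
        · have h1 := ht.1
          have h2 := hτ.1
          linarith
        · have h1 := ht.2
          have h2 := hτ.2
          linarith)
  refine le_trans ?_ hav
  refine mul_le_mul_of_nonneg_right ?_ hJ
  linarith

theorem main_gap (q : ℕ) (hq : 2 ≤ q) (ε α β : ℝ) (hε : 0 < ε) (hα : 0 ≤ α) (hαβ : α < β) (hβ : β ≤ 1) :
    ∃ c κ : ℝ, 0 < c ∧ 0 < κ ∧ ∀ᶠ T : ℝ in atTop, ∀ H : ℝ, T ^ ε ≤ H → H ≤ T →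
      ∀ (ι : Type) (M : Finset ι) (b : ι → ℂ) (lam : ι → ℝ),
      (((∀ i ∈ M, lam i ≤ α * Real.log H ∨ β * Real.log H ≤ lam i) ∧
          (∑ i ∈ M, ‖b i‖ ≤ Real.exp (T ^ κ) ∨
            ((M.card : ℝ) ≤ Real.exp (T ^ κ) ∧ ∀ i ∈ M, ∀ j ∈ M, i ≠ j → H ^ (-α) ≤ |lam i - lam j|))) ∨
        ((∀ i ∈ M, lam i ≤ α * Real.log T ∨ Real.log T ≤ lam i) ∧ ∑ i ∈ M, ‖b i‖ ≤ Real.exp (T ^ κ))) →
      c * H * Real.log T ^ ((q:ℝ) ^ 2 / 4) ≤
        ∫ t in Set.Icc T (T + H), ‖zl t - TP M b (fun i => -lam i) t‖ ^ q := by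
  obtain ⟨ε', hε'⟩ : ∃ ε' : ℝ, ε' = min ε 1 := ⟨_, rfl⟩
  have hε'0 : 0 < ε' := by rw [hε']; exact lt_min hε one_pos
  have hε'1 : ε' ≤ 1 := by rw [hε']; exact min_le_right _ _
  have hε'2 : ε' ≤ ε := by rw [hε']; exact min_le_left _ _
  obtain ⟨e, he⟩ : ∃ e : ℝ, e = min (min (ε / 3) (1 / 16)) ((1 - α) / 16) := ⟨_, rfl⟩
  have he0 : 0 < e := by rw [he]; exact lt_min (lt_min (by positivity) (by norm_num)) (by linarith)
  have he1 : e ≤ 1 / 16 := by rw [he]; exact (min_le_left _ _).trans (min_le_right _ _)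
  have he2 : e ≤ ε / 3 := by rw [he]; exact (min_le_left _ _).trans (min_le_left _ _)
  have he3 : e ≤ (1 - α) / 16 := by rw [he]; exact min_le_right _ _
  obtain ⟨c₁, hc₁, h1⟩ := win_direct q hq hε'0 hε'1 hα hαβ hβ
  obtain ⟨c₂, hc₂, h2⟩ := win_sep q hq hε'0 hε'1 hα hαβ hβ
  obtain ⟨c₃, hc₃, h3⟩ := win_reflect q hq he0 he1 (θ := α) (by linarith)
  obtain ⟨c, hcdef⟩ : ∃ c : ℝ, c = min (min c₁ c₂) c₃ := ⟨_, rfl⟩
  have hc : 0 < c := by rw [hcdef]; exact lt_min (lt_min hc₁ hc₂) hc₃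
  have hcc1 : c ≤ c₁ := by rw [hcdef]; exact (min_le_left _ _).trans (min_le_left _ _)
  have hcc2 : c ≤ c₂ := by rw [hcdef]; exact (min_le_left _ _).trans (min_le_right _ _)
  have hcc3 : c ≤ c₃ := by rw [hcdef]; exact min_le_right _ _
  obtain ⟨γ, hγ⟩ : ∃ γ : ℝ, γ = (β - α) / 8 := ⟨_, rfl⟩
  have hγ0 : 0 < γ := by rw [hγ]; linarith only [hαβ]
  obtain ⟨κ, hκ⟩ : ∃ κ : ℝ, κ = min (ε' * (β - α) / 16) e := ⟨_, rfl⟩
  have hβα : 0 < β - α := by linarith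
  have hκ0 : 0 < κ := by rw [hκ]; exact lt_min (by positivity) he0
  have hκ1 : κ ≤ ε' * (β - α) / 16 := by rw [hκ]; exact min_le_left _ _
  have hκ2 : κ ≤ e := by rw [hκ]; exact min_le_right _ _
  refine ⟨c / 2, κ, by positivity, hκ0, ?_⟩
  filter_upwards [h1, h2, h3, ev_rpow_ge (4 ^ (1 / γ)) ε hε, ev_rpow_ge 4 (ε / 3) (by positivity),
    eventually_ge_atTop 1] with T g1 g2 g3 g4 g5 hT1 H hH1 hH2 ι M b lam hyp
  have hT0 : 0 < T := by linarith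
  have hlog : 0 ≤ Real.log T := Real.log_nonneg hT1
  have hHε' : T ^ ε' ≤ H := (Real.rpow_le_rpow_of_exponent_le hT1 hε'2).trans hH1
  have hH01 : 1 ≤ H := (Real.one_le_rpow hT1 hε.le).trans hH1
  have hH0 : 0 < H := by linarith
  have hex : (((q:ℝ) / 2) ^ 2) = (q:ℝ) ^ 2 / 4 := by ring
  rw [hex] at g1 g2 g3
  have hLp : 0 ≤ Real.log T ^ ((q:ℝ) ^ 2 / 4) := by positivity
  have hJ : 0 ≤ c * Real.log T ^ ((q:ℝ) ^ 2 / 4) := by positivity
  have hmono : ∀ s : ℝ, κ ≤ s → Real.exp (T ^ κ) ≤ Real.exp (T ^ s) := fun s hs =>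
    Real.exp_le_exp.mpr (Real.rpow_le_rpow_of_exponent_le hT1 hs)
  -- the two window shapes
  have h4R : 4 * H ^ (1 - (β - α) / 8) ≤ H := by
    have e1 : 4 ≤ H ^ γ := by
      have e2 : (4 ^ (1 / γ) : ℝ) ≤ H := g4.trans hH1
      calc (4:ℝ) = (4 ^ (1 / γ) : ℝ) ^ γ := by
            rw [← Real.rpow_mul (by norm_num), one_div_mul_cancel hγ0.ne', Real.rpow_one]
        _ ≤ H ^ γ := Real.rpow_le_rpow (by positivity) e2 hγ0.le
    have e3 : H ^ γ * H ^ (1 - (β - α) / 8) = H := by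
      rw [← Real.rpow_add hH0, hγ]
      conv_rhs => rw [← Real.rpow_one H]
      congr 1; ring
    calc 4 * H ^ (1 - (β - α) / 8) ≤ H ^ γ * H ^ (1 - (β - α) / 8) := by gcongr
      _ = H := e3
  have h4R' : 4 * T ^ (2 * e) ≤ H := by
    refine le_trans ?_ hH1
    calc 4 * T ^ (2 * e) ≤ T ^ (ε / 3) * T ^ (2 * e) := by gcongr
      _ = T ^ (ε / 3 + 2 * e) := by rw [← Real.rpow_add hT0]
      _ ≤ T ^ ε := Real.rpow_le_rpow_of_exponent_le hT1 (by linarith)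
  have fin : ∀ Hw Rw : ℝ, 0 < Hw → 0 ≤ Rw → 4 * Rw ≤ H →
      (∀ τ : ℝ, T ≤ τ → τ ≤ 2 * T → c * Real.log T ^ ((q:ℝ) ^ 2 / 4) ≤ GG M b (fun i => -lam i) q τ Hw Rw) →
      c / 2 * H * Real.log T ^ ((q:ℝ) ^ 2 / 4) ≤
        ∫ t in Set.Icc T (T + H), ‖zl t - TP M b (fun i => -lam i) t‖ ^ q := by
    intro Hw Rw hHw hRw h4 hG
    have := avg_step M b (fun i => -lam i) q T H Hw Rw (c * Real.log T ^ ((q:ℝ) ^ 2 / 4)) hHw hRw h4 hJ (by
      intro τ hτ1 hτ2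
      exact hG τ (by linarith) (by linarith))
    refine le_trans (le_of_eq ?_) this
    ring
  rcases hyp with ⟨hgap, hco⟩ | ⟨hgap, hco⟩
  · rcases hco with hco | ⟨hcard, hsep⟩
    · refine fin (H ^ (1 - (β - α) / 4)) (H ^ (1 - (β - α) / 8)) (by positivity) (by positivity) h4R ?_
      intro τ hτ1 hτ2
      refine le_trans (mul_le_mul_of_nonneg_right hcc1 hLp) ?_
      refine g1 H hHε' hH2 τ hτ1 hτ2 ι M b lam (hco.trans (hmono _ ?_)) hgap
      have : 0 < ε' * (β - α) := by positivity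
      linarith
    · refine fin (H ^ (1 - (β - α) / 4)) (H ^ (1 - (β - α) / 8)) (by positivity) (by positivity) h4R ?_
      intro τ hτ1 hτ2
      refine le_trans (mul_le_mul_of_nonneg_right hcc2 hLp) ?_
      exact g2 H hHε' hH2 τ hτ1 hτ2 ι M b lam (hcard.trans (hmono _ hκ1)) hsep hgap
  · refine fin (T ^ e) (T ^ (2 * e)) (by positivity) (by positivity) h4R' ?_
    intro τ hτ1 hτ2
    refine le_trans (mul_le_mul_of_nonneg_right hcc3 hLp) ?_
    exact g3 τ hτ1 hτ2 ι M b lam (hco.trans (hmono _ hκ2)) hgap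

end

end Pool.Agent.K7.H52.MD
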